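import Pool.Agent.TH573.NI.Rep
import Pool.Agent.TH573.UE.Ces

/-!
Groups with a gauge: words of polynomial length in a nilpotent group depend on their letters in a
controlled way, and the orbits of nilrotations have low complexity.
-/

set_option autoImplicit false

open scoped Pointwise commutatorElement Topology

namespace Pool.Agent.TH573.NI

/-- a size function near the identity -/
structure Gauge {G : Type} [Group G] [TopologicalSpace G] (N : G → ℝ) : Prop where
  nonneg : ∀ x, 0 ≤ N x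
  one : N 1 = 0
  nhd : ∀ U ∈ 𝓝 (1 : G), ∃ r : ℝ, 0 < r ∧ ∀ x, N x ≤ r → x ∈ U
  mul : ∃ r : ℝ, 0 < r ∧ ∃ A : ℝ, 1 ≤ A ∧ ∀ x y, N x ≤ r → N y ≤ r → N (x * y) ≤ N x + A * N y
  comm : ∀ K : Set G, IsCompact K → ∃ r : ℝ, 0 < r ∧ ∃ A : ℝ, 1 ≤ A ∧ ∀ x ∈ K, ∀ v, N v ≤ r →
    N (v⁻¹ * (x * v * x⁻¹)) ≤ A * N v
  net : ∀ K : Set G, IsCompact K → ∃ C : ℕ, 1 ≤ C ∧ ∀ j : ℕ, ∃ P : Finset G,
    P.card ≤ C ^ (j + 1) ∧ ∀ x ∈ K, ∃ p ∈ P, N (p * x⁻¹) ≤ (1 / 2 : ℝ) ^ j

variable {G : Type} [Group G] [TopologicalSpace G] {N : G → ℝ}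

theorem conj_bound (hN : Gauge N) (k : ℕ) (hk : (⊤ : Subgroup G).lowerCentralSeries k = ⊥)
    (K : Set G) (hK : IsCompact K) :
    ∃ r : ℝ, 0 < r ∧ ∃ A : ℝ, 1 ≤ A ∧ (∀ x y, N x ≤ r → N y ≤ r → N (x * y) ≤ N x + A * N y) ∧
      ∀ d : ℕ, d ≤ k → ∀ l : List G, (∀ a ∈ l, a ∈ K) →
      ∀ v ∈ (⊤ : Subgroup G).lowerCentralSeries (k - d), (1 + A * l.length) ^ d * N v ≤ r →
        N (l.prod * v * l.prod⁻¹) ≤ (1 + A * l.length) ^ d * N v := by
  obtain ⟨r1, hr1, A1, hA1, h1⟩ := hN.mul
  obtain ⟨r2, hr2, A2, hA2, h2⟩ := hN.comm K hK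
  obtain ⟨r, hr⟩ : ∃ r, r = min r1 r2 := ⟨_, rfl⟩
  have hrr1 : r ≤ r1 := by rw [hr]; exact min_le_left _ _
  have hrr2 : r ≤ r2 := by rw [hr]; exact min_le_right _ _
  have hr0 : 0 < r := by rw [hr]; exact lt_min hr1 hr2
  obtain ⟨A, hA⟩ : ∃ A, A = A1 * A2 := ⟨_, rfl⟩
  have hA1A : A1 ≤ A := by rw [hA]; nlinarith
  have hA2A : A2 ≤ A := by rw [hA]; nlinarith
  have hA0 : 1 ≤ A := hA1.trans hA1A
  refine ⟨r, hr0, A, hA0, ?_, ?_⟩
  · intro x y hx hy
    refine (h1 x y (hx.trans hrr1) (hy.trans hrr1)).trans ?_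
    have := hN.nonneg y
    nlinarith
  intro d
  induction d with
  | zero =>
    intro _ l _ v hv _
    rw [Nat.sub_zero, hk, Subgroup.mem_bot] at hv
    rw [hv, mul_one, mul_inv_cancel, hN.one]
    simp
  | succ d ih =>
    intro hd l
    induction l using List.reverseRecOn with
    | nil =>
      intro _ v _ _
      simp
    | append_singleton l a ihl =>
      intro hl v hv hvr
      have hal : a ∈ K := hl a (by simp)
      have hll : ∀ b ∈ l, b ∈ K := fun b hb => hl b (by simp [hb])
      obtain ⟨m, hm⟩ : ∃ m : ℝ, m = 1 + A * l.length := ⟨_, rfl⟩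
      have hm1 : 1 ≤ m := by
        rw [hm]
        have : (0 : ℝ) ≤ A * l.length := by positivity
        linarith
      have hlen : (1 : ℝ) + A * ((l ++ [a]).length : ℕ) = m + A := by
        rw [hm, List.length_append, List.length_singleton]
        push_cast
        ring
      rw [hlen] at hvr ⊢
      rw [← hm] at ihl
      have hNv := hN.nonneg v
      have hmd : 1 ≤ m ^ d := one_le_pow₀ hm1
      have hmono : m ^ d ≤ (m + A) ^ d := pow_le_pow_left₀ (by linarith) (by linarith) d
      have hmono1 : m ^ (d + 1) ≤ (m + A) ^ (d + 1) :=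
        pow_le_pow_left₀ (by linarith) (by linarith) _
      have hvr0 : N v ≤ r := by
        refine le_trans ?_ hvr
        have : 1 ≤ (m + A) ^ (d + 1) := one_le_pow₀ (by linarith)
        nlinarith
      obtain ⟨w, hw⟩ : ∃ w, w = v⁻¹ * (a * v * a⁻¹) := ⟨_, rfl⟩
      have hwN : N w ≤ A2 * N v := by
        rw [hw]
        exact h2 a hal v (hvr0.trans hrr2)
      have hwm : w ∈ (⊤ : Subgroup G).lowerCentralSeries (k - d) := by
        have e : w = ⁅v⁻¹, a⁆ := by
          rw [hw, commutatorElement_def]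
          group
        have e2 : k - d = (k - (d + 1)) + 1 := by omega
        rw [e, e2]
        exact Subgroup.commutator_mem_commutator (Subgroup.inv_mem _ hv) (Subgroup.mem_top a)
      have hNw := hN.nonneg w
      have hbd : m ^ d * N w ≤ m ^ d * (A2 * N v) :=
        mul_le_mul_of_nonneg_left hwN (by positivity)
      have hbd2 : m ^ d * (A * N v) ≤ (m + A) ^ (d + 1) * N v := by
        have h3 : m ^ d * A ≤ (m + A) ^ (d + 1) := by
          rw [pow_succ]
          exact mul_le_mul hmono (by linarith) (by linarith) (by positivity)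
        nlinarith
      have hbd3 : m ^ d * (A2 * N v) ≤ m ^ d * (A * N v) := by
        refine mul_le_mul_of_nonneg_left ?_ (by positivity)
        exact mul_le_mul_of_nonneg_right hA2A hNv
      have h4 := ihl hll v hv (by
        refine le_trans ?_ hvr
        exact mul_le_mul_of_nonneg_right hmono1 hNv)
      have h5 := ih (by omega) l hll w hwm (by
        rw [← hm]
        linarith)
      rw [← hm] at h5
      have e3 : (l ++ [a]).prod * v * (l ++ [a]).prod⁻¹ =
          (l.prod * v * l.prod⁻¹) * (l.prod * w * l.prod⁻¹) := by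
        rw [List.prod_append, List.prod_singleton, hw]
        group
      rw [e3]
      have h6 : N (l.prod * v * l.prod⁻¹) ≤ r1 := by
        refine h4.trans (le_trans ?_ hrr1)
        refine le_trans ?_ hvr
        exact mul_le_mul_of_nonneg_right hmono1 hNv
      have h7 : N (l.prod * w * l.prod⁻¹) ≤ r1 := by
        refine h5.trans (le_trans ?_ hrr1)
        linarith
      refine (h1 _ _ h6 h7).trans ?_
      have h8 : A1 * N (l.prod * w * l.prod⁻¹) ≤ A1 * (m ^ d * (A2 * N v)) :=
        mul_le_mul_of_nonneg_left (h5.trans hbd) (by linarith)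
      have h9 : A1 * (m ^ d * (A2 * N v)) = m ^ d * (A * N v) := by rw [hA]; ring
      have h10 : m ^ (d + 1) * N v + m ^ d * (A * N v) = m ^ d * ((m + A) * N v) := by ring
      have h11 : m ^ d * ((m + A) * N v) ≤ (m + A) ^ d * ((m + A) * N v) :=
        mul_le_mul_of_nonneg_right hmono (by positivity)
      have h12 : (m + A) ^ d * ((m + A) * N v) = (m + A) ^ (d + 1) * N v := by ring
      linarith

theorem perturb (hN : Gauge N) (k : ℕ) (hk : (⊤ : Subgroup G).lowerCentralSeries k = ⊥)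
    (K : Set G) (hK : IsCompact K) :
    ∃ r : ℝ, 0 < r ∧ ∃ A : ℝ, 1 ≤ A ∧ ∀ (w : List ℕ) (κ κ' : ℕ → G) (δ : ℝ), 0 ≤ δ →
      (∀ i ∈ w, κ i ∈ K) → (∀ i ∈ w, N (κ' i * (κ i)⁻¹) ≤ δ) → ∀ Q : ℝ, (w.length : ℝ) ≤ Q → 
      A * Q * ((1 + A * Q) ^ k * δ) ≤ r →
      N ((w.map κ').prod * ((w.map κ).prod)⁻¹) ≤ A * w.length * ((1 + A * Q) ^ k * δ) := by
  obtain ⟨r, hr, A, hA, hmul, hcon⟩ := conj_bound hN k hk K hK
  refine ⟨r, hr, A, hA, ?_⟩
  intro w κ κ' δ hδ
  induction w using List.reverseRecOn with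
  | nil =>
    intro _ _ Q _ _
    simp [hN.one]
  | append_singleton w i ih =>
    intro hw hv Q hQ hr'
    have hlen : ((w ++ [i]).length : ℝ) = w.length + 1 := by
      rw [List.length_append, List.length_singleton]
      push_cast
      ring
    rw [hlen] at hQ ⊢
    have hw0 : (0 : ℝ) ≤ w.length := Nat.cast_nonneg _
    have h1 := ih (fun j hj => hw j (by simp [hj])) (fun j hj => hv j (by simp [hj])) Q
      (by linarith) hr'
    obtain ⟨X, hX⟩ : ∃ X, X = (1 + A * Q) ^ k * δ := ⟨_, rfl⟩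
    have hAQ : 0 ≤ A * Q := by
      apply mul_nonneg (by linarith)
      linarith
    have hX0 : 0 ≤ X := by
      rw [hX]
      exact mul_nonneg (pow_nonneg (by linarith) _) hδ
    rw [← hX] at h1 hr' ⊢
    have hAQ1 : 1 ≤ A * Q := by nlinarith
    have hXr : X ≤ r := by nlinarith
    obtain ⟨v, hvd⟩ : ∃ v, v = κ' i * (κ i)⁻¹ := ⟨_, rfl⟩
    have hvN : N v ≤ δ := by rw [hvd]; exact hv i (by simp)
    have hNv := hN.nonneg v
    have h2 : (1 + A * ((w.map κ).length : ℕ)) ^ k * N v ≤ X := by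
      rw [hX, List.length_map]
      have h3 : (1 + A * (w.length : ℝ)) ^ k ≤ (1 + A * Q) ^ k := by
        apply pow_le_pow_left₀
        · have : 0 ≤ A * (w.length : ℝ) := by positivity
          linarith
        · have : A * (w.length : ℝ) ≤ A * Q := mul_le_mul_of_nonneg_left (by linarith) (by linarith)
          linarith
      exact mul_le_mul h3 hvN hNv (pow_nonneg (by linarith) _)
    have h4 := hcon k le_rfl (w.map κ) (by
      intro a ha
      rw [List.mem_map] at ha
      obtain ⟨j, hj, rfl⟩ := ha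
      exact hw j (by simp [hj])) v (by
        rw [Nat.sub_self]
        exact Subgroup.mem_top v) (h2.trans hXr)
    have h5 := h4.trans h2
    have e : ((w ++ [i]).map κ').prod * (((w ++ [i]).map κ).prod)⁻¹ =
        ((w.map κ').prod * ((w.map κ).prod)⁻¹) *
          ((w.map κ).prod * v * ((w.map κ).prod)⁻¹) := by
      rw [List.map_append, List.map_append, List.prod_append, List.prod_append, hvd]
      simp only [List.map_cons, List.map_nil, List.prod_singleton]
      group
    rw [e]
    have h6 : A * w.length * X ≤ A * Q * X := by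
      refine mul_le_mul_of_nonneg_right ?_ hX0
      exact mul_le_mul_of_nonneg_left (by linarith) (by linarith)
    refine (hmul _ _ (h1.trans (h6.trans hr')) (h5.trans hXr)).trans ?_
    have h7 : A * N ((w.map κ).prod * v * ((w.map κ).prod)⁻¹) ≤ A * X :=
      mul_le_mul_of_nonneg_left h5 (by linarith)
    linarith

/-! ### the words -/

/-- the lengths of the sublists of a list of `m` elements -/
def ws (m : ℕ) : List ℕ := (List.replicate m ()).sublists'.map List.length

theorem wd_eq (κ : ℕ → G) (m : ℕ) : wd κ m = (ws m).map κ := by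
  unfold wd ws
  rw [List.map_map]
  rfl

theorem ws_succ (m : ℕ) : ws (m + 1) = ws m ++ (ws m).map (· + 1) := by
  unfold ws
  rw [List.replicate_succ, List.sublists'_cons, List.map_append, List.map_map, List.map_map]
  rfl

theorem ws_count (m : ℕ) : ∀ k : ℕ, ((ws m).filter (· ≤ k)).length ≤ (m + 1) ^ k := by
  induction m with
  | zero =>
    intro k
    have : ws 0 = [0] := rfl
    rw [this]
    simp
  | succ m ih =>
    intro k
    rw [ws_succ, List.filter_append, List.length_append, List.filter_map, List.length_map]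
    cases k with
    | zero =>
      have h1 : (ws m).filter ((fun x : ℕ => decide (x ≤ 0)) ∘ (· + 1)) = [] := by
        rw [List.filter_eq_nil_iff]
        intro a _
        simp
      rw [h1]
      simpa using ih 0
    | succ k =>
      have h1 : (ws m).filter ((fun x : ℕ => decide (x ≤ k + 1)) ∘ (· + 1)) =
          (ws m).filter (· ≤ k) := by
        apply List.filter_congr
        intro a _
        simp
      rw [h1]
      have h2 := ih (k + 1)
      have h3 := ih k
      calc _ ≤ (m + 1) ^ (k + 1) + (m + 1) ^ k := add_le_add h2 h3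
        _ = (m + 1) ^ k * (m + 1 + 1) := by ring
        _ ≤ (m + 1 + 1) ^ k * (m + 1 + 1) :=
            Nat.mul_le_mul_right _ (Nat.pow_le_pow_left (by omega) k)
        _ = _ := by ring

theorem prod_filter (κ : ℕ → G) (k : ℕ) (h : ∀ i, k < i → κ i = 1) (w : List ℕ) :
    (w.map κ).prod = ((w.filter (· ≤ k)).map κ).prod := by
  induction w with
  | nil => rfl
  | cons a w ih =>
    rw [List.map_cons, List.prod_cons, ih, List.filter_cons]
    by_cases ha : a ≤ k
    · rw [if_pos (by simpa using ha), List.map_cons, List.prod_cons]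
    · rw [if_neg (by simpa using ha), h a (by omega), one_mul]

theorem unif [IsTopologicalGroup G] (Γ : Subgroup G) (K : Set G) (hK : IsCompact K)
    (hcov : ∀ x : G, ∃ c ∈ K, ∃ γ ∈ Γ, x = c * γ) (F : G → ℂ) (hF : Continuous F)
    (hinv : ∀ g, ∀ γ ∈ Γ, F (g * γ) = F g) (ε : ℝ) (hε : 0 < ε) :
    ∃ U ∈ 𝓝 (1 : G), ∀ u ∈ U, ∀ g, ‖F (u * g) - F g‖ ≤ ε := by
  have h1 : ∀ᶠ u in 𝓝 (1 : G), ∀ c ∈ K, ‖F (u * c) - F c‖ ≤ ε := by
    apply hK.eventually_forall_of_forall_eventually
    intro c _
    have h2 : Continuous fun z : G × G => ‖F (z.1 * z.2) - F z.2‖ := by fun_prop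
    have h3 := (h2.tendsto ((1 : G), c)).eventually (gt_mem_nhds (show
      ‖F (((1 : G), c).1 * ((1 : G), c).2) - F ((1 : G), c).2‖ < ε by simpa using hε))
    exact h3.mono fun z hz => hz.le
  refine ⟨_, h1, fun u hu g => ?_⟩
  obtain ⟨c, hc, γ, hγ, rfl⟩ := hcov g
  rw [← mul_assoc, hinv _ γ hγ, hinv _ γ hγ]
  exact hu c hc

end Pool.Agent.TH573.NI
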