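import Pool.Agent.TH573.NI.Low

/-!
Every finite-dimensional Lie group has a gauge.
-/

set_option autoImplicit false

open scoped Topology Manifold ContDiff
open Filter

namespace Pool.Agent.TH573.NI

/-! ### nets in balls -/

theorem ballnet (E : Type) [NormedAddCommGroup E] [NormedSpace ℝ E] [FiniteDimensional ℝ E] :
    ∃ C : ℕ, 1 ≤ C ∧ ∀ (a : E) (ρ : ℝ), 0 < ρ → ∀ j : ℕ, ∃ P : Finset E, P.card ≤ C ^ j ∧
      (∀ p ∈ P, ‖p - a‖ ≤ 2 * ρ - 2 * ρ / 2 ^ j) ∧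
      ∀ b, ‖b - a‖ ≤ ρ → ∃ p ∈ P, ‖b - p‖ ≤ ρ / 2 ^ j := by
  classical
  obtain ⟨t, ht1, htf, ht2⟩ := (isCompact_closedBall (0 : E) 1).finite_cover_balls
    (show (0 : ℝ) < 1 / 2 by norm_num)
  obtain ⟨F, hF⟩ : ∃ F : Finset E, F = htf.toFinset := ⟨_, rfl⟩
  have hFm : ∀ f, f ∈ F ↔ f ∈ t := by intro f; rw [hF, Set.Finite.mem_toFinset]
  refine ⟨F.card + 1, by omega, ?_⟩
  intro a ρ hρ j
  induction j with
  | zero =>
    refine ⟨{a}, by simp, ?_, ?_⟩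
    · intro p hp
      rw [Finset.mem_singleton] at hp
      rw [hp]
      simp
    · intro b hb
      exact ⟨a, Finset.mem_singleton_self a, by simpa using hb⟩
  | succ j ih =>
    obtain ⟨P, hP1, hP2, hP3⟩ := ih
    have hρj : 0 < ρ / 2 ^ j := by positivity
    refine ⟨(P ×ˢ F).image (fun q => q.1 + (ρ / 2 ^ j) • q.2), ?_, ?_, ?_⟩
    · refine Finset.card_image_le.trans ?_
      rw [Finset.card_product, pow_succ]
      exact Nat.mul_le_mul hP1 (Nat.le_succ _)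
    · intro p hp
      rw [Finset.mem_image] at hp
      obtain ⟨⟨p', f⟩, hpf, rfl⟩ := hp
      rw [Finset.mem_product] at hpf
      have h1 := hP2 p' hpf.1
      have h2 : ‖f‖ ≤ 1 := by simpa using ht1 ((hFm f).1 hpf.2)
      have h3 : ‖p' + (ρ / 2 ^ j) • f - a‖ ≤ ‖p' - a‖ + ρ / 2 ^ j := by
        calc _ = ‖(p' - a) + (ρ / 2 ^ j) • f‖ := by congr 1; abel
          _ ≤ ‖p' - a‖ + ‖(ρ / 2 ^ j) • f‖ := norm_add_le _ _
          _ ≤ _ := by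
            rw [norm_smul, Real.norm_eq_abs, abs_of_pos hρj]
            nlinarith
      refine h3.trans ?_
      have h4 : 2 * ρ / 2 ^ (j + 1) = ρ / 2 ^ j := by
        rw [pow_succ]; field_simp
      have h5 : 2 * ρ / 2 ^ j = 2 * (ρ / 2 ^ j) := by ring
      rw [h4]
      rw [h5] at h1
      linarith
    · intro b hb
      obtain ⟨p, hp, hbp⟩ := hP3 b hb
      have h1 : (ρ / 2 ^ j)⁻¹ • (b - p) ∈ Metric.closedBall (0 : E) 1 := by
        rw [mem_closedBall_zero_iff, norm_smul, norm_inv, Real.norm_eq_abs, abs_of_pos hρj,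
          inv_mul_le_iff₀ hρj, mul_one]
        exact hbp
      have h2 := ht2 h1
      simp only [Set.mem_iUnion, Metric.mem_ball, exists_prop] at h2
      obtain ⟨f, hf, hd⟩ := h2
      refine ⟨p + (ρ / 2 ^ j) • f, Finset.mem_image.2 ⟨(p, f), Finset.mem_product.2
        ⟨hp, (hFm f).2 hf⟩, rfl⟩, ?_⟩
      have h3 : b - (p + (ρ / 2 ^ j) • f) = (ρ / 2 ^ j) • ((ρ / 2 ^ j)⁻¹ • (b - p) - f) := by
        rw [smul_sub, smul_smul, mul_inv_cancel₀ hρj.ne', one_smul]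
        abel
      rw [h3, norm_smul, Real.norm_eq_abs, abs_of_pos hρj, ← dist_eq_norm]
      have h4 : ρ / 2 ^ (j + 1) = ρ / 2 ^ j * (1 / 2) := by
        rw [pow_succ]; field_simp
      rw [h4]
      exact mul_le_mul_of_nonneg_left hd.le hρj.le

/-! ### local estimates -/

variable {E : Type} [NormedAddCommGroup E] [NormedSpace ℝ E]
  {G : Type} [Group G] [TopologicalSpace G] [ChartedSpace E G]
  [LieGroup 𝓘(ℝ, E) ((⊤ : ℕ∞) : WithTop ℕ∞) G]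

theorem lip (Φ : G × G → G)
    (hΦ : ContMDiff (𝓘(ℝ, E).prod 𝓘(ℝ, E)) 𝓘(ℝ, E) ((⊤ : ℕ∞) : WithTop ℕ∞) Φ) (x₀ y₀ : G)
    (h1 : Φ (x₀, y₀) = 1) :
    ∃ K : ℝ, 0 ≤ K ∧ ∃ U ∈ 𝓝 x₀, ∃ V ∈ 𝓝 y₀, ∀ x ∈ U, ∀ y ∈ V,
      Φ (x, y) ∈ (extChartAt 𝓘(ℝ, E) (1 : G)).source ∧ ∀ y' ∈ V,
      ‖extChartAt 𝓘(ℝ, E) (1 : G) (Φ (x, y)) - extChartAt 𝓘(ℝ, E) (1 : G) (Φ (x, y'))‖ ≤
        K * ‖extChartAt 𝓘(ℝ, E) y₀ y - extChartAt 𝓘(ℝ, E) y₀ y'‖ := by
  obtain ⟨e, he⟩ : ∃ e, e = extChartAt 𝓘(ℝ, E) (1 : G) := ⟨_, rfl⟩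
  obtain ⟨ex, hex⟩ : ∃ ex, ex = extChartAt 𝓘(ℝ, E) x₀ := ⟨_, rfl⟩
  obtain ⟨ey, hey⟩ : ∃ ey, ey = extChartAt 𝓘(ℝ, E) y₀ := ⟨_, rfl⟩
  have hsymx : ContMDiffAt 𝓘(ℝ, E) 𝓘(ℝ, E) ((⊤ : ℕ∞) : WithTop ℕ∞) ex.symm (ex x₀) := by
    rw [hex]
    exact (contMDiffOn_extChartAt_symm x₀).contMDiffAt (extChartAt_target_mem_nhds x₀)
  have hsymy : ContMDiffAt 𝓘(ℝ, E) 𝓘(ℝ, E) ((⊤ : ℕ∞) : WithTop ℕ∞) ey.symm (ey y₀) := by
    rw [hey]
    exact (contMDiffOn_extChartAt_symm y₀).contMDiffAt (extChartAt_target_mem_nhds y₀)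
  have hx0 : ex.symm (ex x₀) = x₀ := by rw [hex]; exact extChartAt_to_inv x₀
  have hy0 : ey.symm (ey y₀) = y₀ := by rw [hey]; exact extChartAt_to_inv y₀
  have hf1 : ContMDiffAt 𝓘(ℝ, E × E) 𝓘(ℝ, E) ((⊤ : ℕ∞) : WithTop ℕ∞)
      (fun p : E × E => ex.symm p.1) (ex x₀, ey y₀) :=
    ContMDiffAt.comp (ex x₀, ey y₀) (g := ex.symm) (f := Prod.fst) hsymx
      contDiff_fst.contMDiff.contMDiffAt
  have hf2 : ContMDiffAt 𝓘(ℝ, E × E) 𝓘(ℝ, E) ((⊤ : ℕ∞) : WithTop ℕ∞)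
      (fun p : E × E => ey.symm p.2) (ex x₀, ey y₀) :=
    ContMDiffAt.comp (ex x₀, ey y₀) (g := ey.symm) (f := Prod.snd) hsymy
      contDiff_snd.contMDiff.contMDiffAt
  have hf3 := hf1.prodMk hf2
  have hΦ0 : Φ (ex.symm (ex x₀), ey.symm (ey y₀)) = 1 := by rw [hx0, hy0, h1]
  have hf4 : ContMDiffAt 𝓘(ℝ, E × E) 𝓘(ℝ, E) ((⊤ : ℕ∞) : WithTop ℕ∞)
      (fun p : E × E => Φ (ex.symm p.1, ey.symm p.2)) (ex x₀, ey y₀) :=
    ContMDiffAt.comp (ex x₀, ey y₀) (g := Φ) (hΦ.contMDiffAt) hf3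
  have hf5 : ContMDiffAt 𝓘(ℝ, E × E) 𝓘(ℝ, E) ((⊤ : ℕ∞) : WithTop ℕ∞)
      (fun p : E × E => e (Φ (ex.symm p.1, ey.symm p.2))) (ex x₀, ey y₀) := by
    refine ContMDiffAt.comp (ex x₀, ey y₀) (g := e) ?_ hf4
    beta_reduce
    rw [hΦ0, he]
    exact contMDiffAt_extChartAt
  have hf6 : ContDiffAt ℝ 1 (fun p : E × E => e (Φ (ex.symm p.1, ey.symm p.2))) (ex x₀, ey y₀) :=
    (contMDiffAt_iff_contDiffAt.1 hf5).of_le (by exact_mod_cast le_top)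
  obtain ⟨K, s, hs, hK⟩ := hf6.exists_lipschitzOnWith
  -- pull back the neighbourhood
  have hcx : ContinuousAt ex x₀ := by rw [hex]; exact continuousAt_extChartAt x₀
  have hcy : ContinuousAt ey y₀ := by rw [hey]; exact continuousAt_extChartAt y₀
  have hs1 : ∀ᶠ p : G × G in 𝓝 (x₀, y₀), (ex p.1, ey p.2) ∈ s := by
    have hcont : ContinuousAt (fun p : G × G => (ex p.1, ey p.2)) (x₀, y₀) :=
      (hcx.comp (x := (x₀, y₀)) continuousAt_fst).prodMk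
        (hcy.comp (x := (x₀, y₀)) continuousAt_snd)
    exact hcont hs
  have hs2 : ∀ᶠ p : G × G in 𝓝 (x₀, y₀), Φ p ∈ e.source := by
    have hcont : ContinuousAt Φ (x₀, y₀) := hΦ.continuous.continuousAt
    have hsrc : e.source ∈ 𝓝 (Φ (x₀, y₀)) := by
      rw [h1, he]
      exact extChartAt_source_mem_nhds 1
    exact hcont hsrc
  have hs3 : ∀ᶠ p : G × G in 𝓝 (x₀, y₀), p.1 ∈ ex.source := by
    have hsrc : ex.source ∈ 𝓝 x₀ := by rw [hex]; exact extChartAt_source_mem_nhds x₀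
    exact continuousAt_fst hsrc
  have hs4 : ∀ᶠ p : G × G in 𝓝 (x₀, y₀), p.2 ∈ ey.source := by
    have hsrc : ey.source ∈ 𝓝 y₀ := by rw [hey]; exact extChartAt_source_mem_nhds y₀
    exact continuousAt_snd hsrc
  have hall := hs1.and (hs2.and (hs3.and hs4))
  rw [nhds_prod_eq, Filter.eventually_prod_iff] at hall
  obtain ⟨pa, hpa, pb, hpb, hab⟩ := hall
  refine ⟨K, K.2, {x | pa x}, hpa, {y | pb y}, hpb, fun x hx y hy => ?_⟩
  obtain ⟨a1, a2, a3, a4⟩ := hab hx hy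
  rw [← he, ← hey]
  refine ⟨a2, fun y' hy' => ?_⟩
  obtain ⟨b1, b2, b3, b4⟩ := hab hx hy'
  have h2 := hK.dist_le_mul _ a1 _ b1
  beta_reduce at h2
  rw [ex.left_inv a3, ey.left_inv a4, ey.left_inv b4, dist_eq_norm, Prod.dist_eq, dist_self,
    max_eq_right dist_nonneg, dist_eq_norm] at h2
  exact h2

open Classical in
/-- the size of an element -/
noncomputable def sz (E : Type) [NormedAddCommGroup E] [NormedSpace ℝ E] {G : Type} [Group G]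
    [TopologicalSpace G] [ChartedSpace E G] (x : G) : ℝ :=
  if x ∈ (extChartAt 𝓘(ℝ, E) (1 : G)).source then
    ‖extChartAt 𝓘(ℝ, E) (1 : G) x - extChartAt 𝓘(ℝ, E) (1 : G) 1‖ else 1

omit [LieGroup 𝓘(ℝ, E) ((⊤ : ℕ∞) : WithTop ℕ∞) G] in
theorem sz_of {x : G} (hx : x ∈ (extChartAt 𝓘(ℝ, E) (1 : G)).source) :
    sz E x = ‖extChartAt 𝓘(ℝ, E) (1 : G) x - extChartAt 𝓘(ℝ, E) (1 : G) 1‖ := if_pos hx

omit [LieGroup 𝓘(ℝ, E) ((⊤ : ℕ∞) : WithTop ℕ∞) G] in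
theorem sz_nhd (U : Set G) (hU : U ∈ 𝓝 (1 : G)) :
    ∃ r : ℝ, 0 < r ∧ r < 1 ∧ ∀ x : G, sz E x ≤ r → x ∈ U ∧ x ∈ (extChartAt 𝓘(ℝ, E) (1 : G)).source := by
  have h1 : (extChartAt 𝓘(ℝ, E) (1 : G)).symm ⁻¹' U ∈ 𝓝 (extChartAt 𝓘(ℝ, E) (1 : G) 1) := by
    have h2 : ContinuousAt (extChartAt 𝓘(ℝ, E) (1 : G)).symm (extChartAt 𝓘(ℝ, E) (1 : G) 1) :=
      continuousAt_extChartAt_symm 1
    apply h2
    rw [extChartAt_to_inv]
    exact hU
  obtain ⟨r, hr, hrU⟩ := Metric.mem_nhds_iff.1 h1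
  refine ⟨min (r / 2) (1 / 2), by positivity, by
    have := min_le_right (r / 2) (1 / 2 : ℝ)
    linarith, fun x hx => ?_⟩
  have hxs : x ∈ (extChartAt 𝓘(ℝ, E) (1 : G)).source := by
    by_contra h
    have h3 : sz E x = 1 := if_neg h
    rw [h3] at hx
    have := min_le_right (r / 2) (1 / 2 : ℝ)
    linarith
  rw [sz_of hxs] at hx
  have h4 : extChartAt 𝓘(ℝ, E) (1 : G) x ∈ Metric.ball (extChartAt 𝓘(ℝ, E) (1 : G) 1) r := by
    rw [mem_ball_iff_norm]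
    have := min_le_left (r / 2) (1 / 2 : ℝ)
    linarith
  have h5 := hrU h4
  rw [Set.mem_preimage, (extChartAt 𝓘(ℝ, E) (1 : G)).left_inv hxs] at h5
  exact ⟨h5, hxs⟩

theorem gauge [FiniteDimensional ℝ E] : Gauge (sz E (G := G)) := by
  classical
  have hsm : ∀ x : G, x ∈ (extChartAt 𝓘(ℝ, E) (1 : G)).source → sz E x =
      ‖extChartAt 𝓘(ℝ, E) (1 : G) x - extChartAt 𝓘(ℝ, E) (1 : G) 1‖ := fun x hx => sz_of hx
  have h1s : (1 : G) ∈ (extChartAt 𝓘(ℝ, E) (1 : G)).source := mem_extChartAt_source 1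
  refine ⟨?_, ?_, ?_, ?_, ?_, ?_⟩
  · intro x
    unfold sz
    split_ifs
    · exact norm_nonneg _
    · norm_num
  · rw [sz_of h1s, sub_self, norm_zero]
  · intro U hU
    obtain ⟨r, hr, _, h⟩ := sz_nhd (E := E) U hU
    exact ⟨r, hr, fun x hx => (h x hx).1⟩
  · -- multiplication
    obtain ⟨K, hK, U, hU, V, hV, h⟩ := lip (E := E) (G := G) (fun p => p.1 * p.2)
      (contMDiff_fst.mul contMDiff_snd) 1 1 (one_mul 1)
    obtain ⟨r, hr, _, hrU⟩ := sz_nhd (E := E) (U ∩ V) (Filter.inter_mem hU hV)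
    refine ⟨r, hr, K + 1, by linarith, fun x y hx hy => ?_⟩
    obtain ⟨⟨hxU, _⟩, hxs⟩ := hrU x hx
    obtain ⟨⟨_, hyV⟩, hys⟩ := hrU y hy
    obtain ⟨h2, h3⟩ := h x hxU y hyV
    have h4 := h3 1 (mem_of_mem_nhds hV)
    beta_reduce at h2 h4
    rw [mul_one] at h4
    rw [sz_of h2, sz_of hxs, sz_of hys]
    have h5 : ‖extChartAt 𝓘(ℝ, E) (1 : G) (x * y) - extChartAt 𝓘(ℝ, E) (1 : G) 1‖ ≤
        ‖extChartAt 𝓘(ℝ, E) (1 : G) (x * y) - extChartAt 𝓘(ℝ, E) (1 : G) x‖ +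
        ‖extChartAt 𝓘(ℝ, E) (1 : G) x - extChartAt 𝓘(ℝ, E) (1 : G) 1‖ := norm_sub_le_norm_sub_add_norm_sub _ _ _
    have h6 := norm_nonneg (extChartAt 𝓘(ℝ, E) (1 : G) y - extChartAt 𝓘(ℝ, E) (1 : G) 1)
    nlinarith
  · -- commutators
    intro K hKc
    have hloc : ∀ x₀ ∈ K, ∃ U ∈ 𝓝 x₀, ∃ r : ℝ, 0 < r ∧ ∃ A : ℝ, 1 ≤ A ∧ ∀ x ∈ U, ∀ v,
        sz E v ≤ r → sz E (v⁻¹ * (x * v * x⁻¹)) ≤ A * sz E v := by
      intro x₀ _
      obtain ⟨B, hB, U, hU, V, hV, h⟩ := lip (E := E) (G := G)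
        (fun p => p.2⁻¹ * (p.1 * p.2 * p.1⁻¹))
        (contMDiff_snd.inv.mul ((contMDiff_fst.mul contMDiff_snd).mul contMDiff_fst.inv)) x₀ 1
        (by simp)
      obtain ⟨r, hr, _, hrU⟩ := sz_nhd (E := E) V hV
      refine ⟨U, hU, r, hr, B + 1, by linarith, fun x hx v hv => ?_⟩
      obtain ⟨hvV, hvs⟩ := hrU v hv
      obtain ⟨h2, h3⟩ := h x hx v hvV
      have h4 := h3 1 (mem_of_mem_nhds hV)
      beta_reduce at h2 h4
      have e1 : (1 : G)⁻¹ * (x * 1 * x⁻¹) = 1 := by simp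
      rw [e1] at h4
      rw [sz_of h2, sz_of hvs]
      have h6 := norm_nonneg (extChartAt 𝓘(ℝ, E) (1 : G) v - extChartAt 𝓘(ℝ, E) (1 : G) 1)
      nlinarith
    choose! U hU r hr A hA h using hloc
    obtain ⟨t, ht, htK⟩ := hKc.elim_nhds_subcover U hU
    rcases t.eq_empty_or_nonempty with hte | hte
    · refine ⟨1, one_pos, 1, le_rfl, fun x hx => ?_⟩
      have := htK hx
      rw [hte] at this
      simp at this
    · obtain ⟨x1, hx1⟩ : ∃ x1, x1 ∈ t := hte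
      have hne : t.Nonempty := ⟨x1, hx1⟩
      refine ⟨t.inf' hne r, ?_, t.sup' hne A, ?_, fun x hx v hv => ?_⟩
      · exact (Finset.lt_inf'_iff (show t.Nonempty from ⟨x1, hx1⟩)).2 fun b hb => hr b (ht b hb)
      · exact (hA x1 (ht x1 hx1)).trans (Finset.le_sup' A hx1)
      · have h2 := htK hx
        simp only [Set.mem_iUnion, exists_prop] at h2
        obtain ⟨b, hb, hxb⟩ := h2
        refine (h b (ht b hb) x hxb v (hv.trans (Finset.inf'_le r hb))).trans ?_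
        refine mul_le_mul_of_nonneg_right (Finset.le_sup' A hb) ?_
        unfold sz
        split_ifs
        · exact norm_nonneg _
        · norm_num
  · -- nets
    intro K hKc
    obtain ⟨C₀, hC₀, hball⟩ := ballnet E
    have hloc : ∀ x₀ ∈ K, ∃ U ∈ 𝓝 x₀, ∃ C : ℕ, 1 ≤ C ∧ ∀ j : ℕ, ∃ P : Finset G,
        P.card ≤ C ^ (j + 1) ∧ ∀ x ∈ U, ∃ p ∈ P, sz E (p * x⁻¹) ≤ (1 / 2 : ℝ) ^ j := by
      intro x₀ _
      obtain ⟨B, hB, U, hU, V, hV, h⟩ := lip (E := E) (G := G)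
        (fun p => p.2 * p.1⁻¹) (contMDiff_snd.mul contMDiff_fst.inv) x₀ x₀ (by simp)
      obtain ⟨e, he⟩ : ∃ e, e = extChartAt 𝓘(ℝ, E) x₀ := ⟨_, rfl⟩
      have h1 : e.symm ⁻¹' V ∩ e.target ∈ 𝓝 (e x₀) := by
        apply Filter.inter_mem
        · have h2 : ContinuousAt e.symm (e x₀) := by rw [he]; exact continuousAt_extChartAt_symm x₀
          apply h2
          rw [he, extChartAt_to_inv]
          exact hV
        · rw [he]; exact extChartAt_target_mem_nhds x₀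
      obtain ⟨ρ', hρ', hρ'2⟩ := Metric.mem_nhds_iff.1 h1
      obtain ⟨ρ, hρ⟩ : ∃ ρ, ρ = ρ' / 4 := ⟨_, rfl⟩
      have hρ0 : 0 < ρ := by rw [hρ]; positivity
      obtain ⟨j₁, hj₁⟩ : ∃ j₁ : ℕ, (B + 1) * ρ < 2 ^ j₁ := pow_unbounded_of_one_lt _ (by norm_num)
      have hnb : {x : G | ‖e x - e x₀‖ ≤ ρ} ∈ 𝓝 x₀ := by
        have h2 : ContinuousAt e x₀ := by rw [he]; exact continuousAt_extChartAt x₀
        have h3 := h2 (Metric.closedBall_mem_nhds (e x₀) hρ0)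
        refine Filter.mem_of_superset h3 fun x hx => ?_
        rw [Set.mem_preimage, mem_closedBall_iff_norm] at hx
        exact hx
      have hsrc : e.source ∈ 𝓝 x₀ := by rw [he]; exact extChartAt_source_mem_nhds x₀
      refine ⟨U ∩ V ∩ {x : G | ‖e x - e x₀‖ ≤ ρ} ∩ e.source,
        Filter.inter_mem (Filter.inter_mem (Filter.inter_mem hU hV) hnb) hsrc, C₀ ^ (j₁ + 1),
        Nat.one_le_pow _ _ hC₀, fun j => ?_⟩
      obtain ⟨P, hP1, hP2, hP3⟩ := hball (e x₀) ρ hρ0 (j + j₁)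
      refine ⟨P.image e.symm, ?_, ?_⟩
      · refine Finset.card_image_le.trans (hP1.trans ?_)
        rw [← pow_mul]
        apply Nat.pow_le_pow_right hC₀
        nlinarith
      · rintro x ⟨⟨⟨hxU, hxV⟩, hxρ⟩, hxs⟩
        obtain ⟨p, hp, hxp⟩ := hP3 (e x) hxρ
        refine ⟨e.symm p, Finset.mem_image_of_mem _ hp, ?_⟩
        have hpb : p ∈ Metric.ball (e x₀) ρ' := by
          rw [mem_ball_iff_norm]
          have h4 := hP2 p hp
          have h5 : 0 ≤ 2 * ρ / 2 ^ (j + j₁) := by positivity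
          linarith
        obtain ⟨hpV, hpt⟩ := hρ'2 hpb
        obtain ⟨h6, h7⟩ := h x hxU (e.symm p) hpV
        have h8 := h7 x hxV
        beta_reduce at h6 h8
        rw [sz_of h6]
        rw [mul_inv_cancel, ← he, e.right_inv hpt] at h8
        refine h8.trans ?_
        rw [norm_sub_rev] at hxp
        have h9 : B * ‖p - e x‖ ≤ (B + 1) * (ρ / 2 ^ (j + j₁)) := by
          apply mul_le_mul (by linarith) hxp (norm_nonneg _) (by linarith)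
        refine h9.trans ?_
        rw [pow_add, one_div, inv_pow, ← mul_div_assoc, div_le_iff₀ (by positivity)]
        have h10 : ((2 : ℝ) ^ j)⁻¹ * (2 ^ j * 2 ^ j₁) = 2 ^ j₁ := by
          field_simp
        rw [h10]
        exact hj₁.le
    choose! U hU C hC h using hloc
    obtain ⟨t, ht, htK⟩ := hKc.elim_nhds_subcover U hU
    refine ⟨t.sum C + 1, by omega, fun j => ?_⟩
    have hP : ∀ x₀ : G, ∃ P : Finset G, x₀ ∈ K → (P.card ≤ C x₀ ^ (j + 1) ∧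
        ∀ x ∈ U x₀, ∃ p ∈ P, sz E (p * x⁻¹) ≤ (1 / 2 : ℝ) ^ j) := by
      intro x₀
      by_cases hx : x₀ ∈ K
      · obtain ⟨P, hP⟩ := h x₀ hx j
        exact ⟨P, fun _ => hP⟩
      · exact ⟨∅, fun h => absurd h hx⟩
    choose P hP using hP
    refine ⟨t.biUnion P, ?_, fun x hx => ?_⟩
    · refine Finset.card_biUnion_le.trans ?_
      calc ∑ b ∈ t, (P b).card ≤ ∑ b ∈ t, C b * (t.sum C) ^ j := by
            refine Finset.sum_le_sum fun b hb => ?_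
            refine (hP b (ht b hb)).1.trans ?_
            rw [pow_succ, mul_comm]
            apply Nat.mul_le_mul_left
            apply Nat.pow_le_pow_left
            exact Finset.single_le_sum (f := C) (fun _ _ => Nat.zero_le _) hb
        _ = (t.sum C) ^ (j + 1) := by rw [← Finset.sum_mul, pow_succ, mul_comm]
        _ ≤ _ := Nat.pow_le_pow_left (Nat.le_succ _) _
    · have h2 := htK hx
      simp only [Set.mem_iUnion, exists_prop] at h2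
      obtain ⟨b, hb, hxb⟩ := h2
      obtain ⟨p, hp, h3⟩ := (hP b (ht b hb)).2 x hxb
      exact ⟨p, Finset.mem_biUnion.2 ⟨b, hb, hp⟩, h3⟩

end Pool.Agent.TH573.NI
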