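import Mathlib

/-!
From natural averages over windows of a fixed length to logarithmic averages over all lengths.
-/

set_option autoImplicit false

namespace Pool.Agent.TH573.NI

open Finset

theorem harm (N : ℕ) : ∑ m ∈ Icc 1 N, 1 / (m : ℝ) ≤ 1 + Real.log N := by
  refine le_trans (le_of_eq ?_) (harmonic_le_one_add_log N)
  rw [harmonic_eq_sum_Icc]
  push_cast
  exact sum_congr rfl fun x _ => one_div _

theorem abel (T : ℕ → ℝ) (hT : ∀ m, 0 ≤ T m) (B : ℝ) (H : ℕ)
    (h : ∀ M, H ≤ M → ∑ m ∈ range (M + 1), T m ≤ B * ((M : ℝ) + 1)) (R : ℕ) (hR : H ≤ R) :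
    ∑ m ∈ Ioc H R, T m / m ≤
      (∑ m ∈ range (R + 1), T m) / ((R : ℝ) + 1) + ∑ m ∈ Ioc H R, B / m := by
  induction R, hR using Nat.le_induction with
  | base =>
    rw [Finset.Ioc_self, Finset.sum_empty, Finset.sum_empty, add_zero]
    exact div_nonneg (Finset.sum_nonneg fun m _ => hT m) (by positivity)
  | succ R hR ih =>
    have e : Ioc H (R + 1) = insert (R + 1) (Ioc H R) := by
      ext x
      simp only [Finset.mem_Ioc, Finset.mem_insert]
      omega
    have hn : R + 1 ∉ Ioc H R := by simp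
    rw [e, Finset.sum_insert hn, Finset.sum_insert hn, Finset.sum_range_succ _ (R + 1)]
    have h1 := h (R + 1) (by omega)
    rw [Finset.sum_range_succ _ (R + 1)] at h1
    obtain ⟨a, ha⟩ : ∃ a, a = ∑ m ∈ range (R + 1), T m := ⟨_, rfl⟩
    rw [← ha] at h1 ih ⊢
    have hR0 : (0 : ℝ) ≤ R := Nat.cast_nonneg R
    push_cast at h1 ⊢
    have h2 : (a + T (R + 1)) / ((R : ℝ) + 1) ≤
        (a + T (R + 1)) / ((R : ℝ) + 1 + 1) + B / ((R : ℝ) + 1) := by
      rw [div_add_div _ _ (by positivity) (by positivity), div_le_div_iff₀ (by positivity)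
        (by positivity)]
      nlinarith
    have h3 : (a + T (R + 1)) / ((R : ℝ) + 1) = a / ((R : ℝ) + 1) + T (R + 1) / ((R : ℝ) + 1) :=
      add_div _ _ _
    linarith

theorem logsum (T : ℕ → ℝ) (L : ℝ) (hL : 1 ≤ L) (hT : ∀ m, 0 ≤ T m) (κ : ℝ) (hκ : 0 < κ) (M₀ : ℕ)
    (h : ∀ M, M₀ ≤ M → ∑ m ∈ range M, T m ≤ κ * L * M) (S : ℕ → ℕ → ℝ)
    (hS : ∀ m H, S m H ≤ (1 / L) * ∑ l ∈ range H, T (m + l) + L) :
    ∃ H₀ : ℕ, ∀ N H : ℕ, H₀ ≤ H → H ≤ N →
      ∑ m ∈ Icc 1 N, (1 / (m : ℝ)) * S m H ≤ 20 * κ * H * Real.log N := by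
  obtain ⟨H₁, hH₁⟩ := exists_nat_ge (L / κ)
  refine ⟨max (max M₀ H₁) 3, fun N H hH hN => ?_⟩
  have b1 : M₀ ≤ H := le_trans (le_trans (le_max_left _ _) (le_max_left _ _)) hH
  have b2 : H₁ ≤ H := le_trans (le_trans (le_max_right _ _) (le_max_left _ _)) hH
  have b3 : 3 ≤ H := le_trans (le_max_right _ _) hH
  have hHr : (3 : ℝ) ≤ H := by exact_mod_cast b3
  have hNr : (H : ℝ) ≤ N := by exact_mod_cast hN
  have hLH : L ≤ κ * H := by
    rw [div_le_iff₀ hκ] at hH₁
    have : (H₁ : ℝ) ≤ H := by exact_mod_cast b2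
    nlinarith
  have hlogH : 1 ≤ Real.log H := by
    rw [Real.le_log_iff_exp_le (by linarith)]
    linarith [Real.exp_one_lt_d9]
  have hlogN : Real.log H ≤ Real.log N := Real.log_le_log (by linarith) hNr
  have hL0 : 0 < L := by linarith
  -- first part
  have hp1 : ∑ m ∈ Icc 1 H, (1 / (m : ℝ)) * S m H ≤ 8 * κ * H * Real.log N := by
    have h1 : ∀ m ∈ Icc 1 H, (1 / (m : ℝ)) * S m H ≤ (4 * κ * H) * (1 / (m : ℝ)) := by
      intro m hm
      rw [Finset.mem_Icc] at hm
      rw [mul_comm]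
      refine mul_le_mul_of_nonneg_right ?_ (by positivity)
      refine (hS m H).trans ?_
      have h2 : ∑ l ∈ range H, T (m + l) ≤ ∑ l ∈ range (2 * H + 1), T l := by
        have h3 : ∑ l ∈ range H, T (m + l) = ∑ l ∈ (range H).map (addLeftEmbedding m), T l := by
          rw [Finset.sum_map]
          rfl
        rw [h3]
        refine Finset.sum_le_sum_of_subset_of_nonneg ?_ fun l _ _ => hT l
        intro x hx
        rw [Finset.mem_map] at hx
        obtain ⟨l, hl, rfl⟩ := hx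
        rw [Finset.mem_range] at hl ⊢
        show m + l < 2 * H + 1
        omega
      have h3 := h (2 * H + 1) (by omega)
      have h4 : (1 / L) * ∑ l ∈ range H, T (m + l) ≤ κ * (2 * H + 1) := by
        rw [one_div, inv_mul_le_iff₀ hL0]
        push_cast at h3
        linarith
      nlinarith
    calc ∑ m ∈ Icc 1 H, (1 / (m : ℝ)) * S m H ≤ ∑ m ∈ Icc 1 H, (4 * κ * H) * (1 / (m : ℝ)) :=
          Finset.sum_le_sum h1
      _ = (4 * κ * H) * ∑ m ∈ Icc 1 H, (1 / (m : ℝ)) := by rw [Finset.mul_sum]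
      _ ≤ (4 * κ * H) * (1 + Real.log H) := mul_le_mul_of_nonneg_left (harm H) (by positivity)
      _ ≤ (4 * κ * H) * (2 * Real.log N) := mul_le_mul_of_nonneg_left (by linarith) (by positivity)
      _ = _ := by ring
  have hp2 : ∑ m ∈ Ioc H N, (1 / (m : ℝ)) * S m H ≤ 12 * κ * H * Real.log N := by
    have h1 : ∀ m ∈ Ioc H N, (1 / (m : ℝ)) * S m H ≤
        (2 / L) * ∑ l ∈ range H, T (m + l) / ((m + l : ℕ) : ℝ) + κ * H * (1 / (m : ℝ)) := by
      intro m hm
      rw [Finset.mem_Ioc] at hm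
      have hm0 : (0 : ℝ) < m := by exact_mod_cast (by omega : 0 < m)
      have h2 : (1 / (m : ℝ)) * S m H ≤
          (1 / (m : ℝ)) * ((1 / L) * ∑ l ∈ range H, T (m + l) + L) :=
        mul_le_mul_of_nonneg_left (hS m H) (by positivity)
      refine h2.trans ?_
      rw [mul_add]
      apply add_le_add
      · rw [← mul_assoc, Finset.mul_sum, Finset.mul_sum]
        refine Finset.sum_le_sum fun l hl => ?_
        rw [Finset.mem_range] at hl
        have h3 : (((m + l : ℕ)) : ℝ) ≤ 2 * m := by exact_mod_cast (by omega : m + l ≤ 2 * m)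
        have h4 : (0 : ℝ) < ((m + l : ℕ) : ℝ) := by exact_mod_cast (by omega : 0 < m + l)
        rw [div_mul_div_comm, one_mul, div_mul_div_comm, div_mul_eq_mul_div, one_mul,
          div_le_div_iff₀ (by positivity) (by positivity)]
        have h5 := hT (m + l)
        have h6 : 0 ≤ T (m + l) * L := by positivity
        nlinarith
      · rw [mul_comm]
        exact mul_le_mul_of_nonneg_right hLH (by positivity)
    have hA : ∑ m ∈ Ioc H (2 * N), T m / m ≤ κ * L * (2 + Real.log (2 * N)) := by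
      have h2 := abel T hT (κ * L) H (fun M hM => by
        have := h (M + 1) (by omega)
        push_cast at this
        exact this) (2 * N) (by omega)
      have h3 := h (2 * N + 1) (by omega)
      have h4 : (∑ m ∈ range (2 * N + 1), T m) / (((2 * N : ℕ) : ℝ) + 1) ≤ κ * L := by
        rw [div_le_iff₀ (by positivity)]
        push_cast at h3 ⊢
        linarith
      have h5 : ∑ m ∈ Ioc H (2 * N), κ * L / (m : ℝ) ≤ κ * L * (1 + Real.log (2 * N)) := by
        have h6 : ∑ m ∈ Ioc H (2 * N), κ * L / (m : ℝ) ≤ ∑ m ∈ Icc 1 (2 * N), κ * L / (m : ℝ) := by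
          refine Finset.sum_le_sum_of_subset_of_nonneg ?_ fun m _ _ => by positivity
          intro x hx
          rw [Finset.mem_Ioc] at hx
          rw [Finset.mem_Icc]
          omega
        refine h6.trans ?_
        have h7 : ∑ m ∈ Icc 1 (2 * N), κ * L / (m : ℝ) = κ * L * ∑ m ∈ Icc 1 (2 * N), 1 / (m : ℝ) := by
          rw [Finset.mul_sum]
          exact Finset.sum_congr rfl fun m _ => by ring
        rw [h7]
        have h8 := harm (2 * N)
        push_cast at h8
        exact mul_le_mul_of_nonneg_left h8 (by positivity)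
      linarith
    have hB : ∑ m ∈ Ioc H N, ∑ l ∈ range H, T (m + l) / ((m + l : ℕ) : ℝ) ≤
        H * (κ * L * (2 + Real.log (2 * N))) := by
      rw [Finset.sum_comm]
      have h2 : ∀ l ∈ range H, ∑ m ∈ Ioc H N, T (m + l) / ((m + l : ℕ) : ℝ) ≤
          κ * L * (2 + Real.log (2 * N)) := by
        intro l hl
        rw [Finset.mem_range] at hl
        refine le_trans ?_ hA
        have h3 : ∑ m ∈ Ioc H N, T (m + l) / ((m + l : ℕ) : ℝ) =
            ∑ m ∈ (Ioc H N).map (addRightEmbedding l), T m / (m : ℝ) := by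
          rw [Finset.sum_map]
          rfl
        rw [h3]
        refine Finset.sum_le_sum_of_subset_of_nonneg ?_ fun m _ _ =>
          div_nonneg (hT m) (Nat.cast_nonneg m)
        intro x hx
        rw [Finset.mem_map] at hx
        obtain ⟨m, hm, rfl⟩ := hx
        rw [Finset.mem_Ioc] at hm ⊢
        show H < m + l ∧ m + l ≤ 2 * N
        omega
      refine (Finset.sum_le_sum h2).trans ?_
      rw [Finset.sum_const, Finset.card_range, nsmul_eq_mul]
    have hl2 : Real.log (2 * N) ≤ 1 + Real.log N := by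
      rw [Real.log_mul (by norm_num) (by linarith)]
      have := Real.log_two_lt_d9
      linarith
    have hC : ∑ m ∈ Ioc H N, 1 / (m : ℝ) ≤ 1 + Real.log N := by
      refine le_trans (Finset.sum_le_sum_of_subset_of_nonneg ?_ fun m _ _ => by positivity) (harm N)
      intro x hx
      rw [Finset.mem_Ioc] at hx
      rw [Finset.mem_Icc]
      omega
    calc ∑ m ∈ Ioc H N, (1 / (m : ℝ)) * S m H ≤ ∑ m ∈ Ioc H N,
          ((2 / L) * ∑ l ∈ range H, T (m + l) / ((m + l : ℕ) : ℝ) + κ * H * (1 / (m : ℝ))) :=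
          Finset.sum_le_sum h1
      _ = (2 / L) * ∑ m ∈ Ioc H N, ∑ l ∈ range H, T (m + l) / ((m + l : ℕ) : ℝ) +
          κ * H * ∑ m ∈ Ioc H N, (1 / (m : ℝ)) := by
          rw [Finset.sum_add_distrib, Finset.mul_sum, Finset.mul_sum]
      _ ≤ (2 / L) * (H * (κ * L * (2 + Real.log (2 * N)))) + κ * H * (1 + Real.log N) := by
          apply add_le_add
          · exact mul_le_mul_of_nonneg_left hB (by positivity)
          · exact mul_le_mul_of_nonneg_left hC (by positivity)
      _ = 2 * κ * H * (2 + Real.log (2 * N)) + κ * H * (1 + Real.log N) := by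
          field_simp
      _ ≤ 12 * κ * H * Real.log N := by
          have hκH : 0 < κ * H := by positivity
          nlinarith
  have e : Icc 1 N = Icc 1 H ∪ Ioc H N := by
    ext x
    simp only [Finset.mem_Icc, Finset.mem_union, Finset.mem_Ioc]
    omega
  have hd : Disjoint (Icc 1 H) (Ioc H N) := by
    rw [Finset.disjoint_left]
    intro x h1 h2
    rw [Finset.mem_Icc] at h1
    rw [Finset.mem_Ioc] at h2
    omega
  rw [e, Finset.sum_union hd]
  linarith

theorem natsum (T : ℕ → ℝ) (L : ℝ) (hL : 1 ≤ L) (hT : ∀ m, 0 ≤ T m) (κ : ℝ) (hκ : 0 < κ) (M₀ : ℕ)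
    (h : ∀ M, M₀ ≤ M → ∑ m ∈ range M, T m ≤ κ * L * M) (S : ℕ → ℕ → ℝ)
    (hS : ∀ m H, S m H ≤ (1 / L) * ∑ l ∈ range H, T (m + l) + L) :
    ∃ H₀ : ℕ, ∀ N H : ℕ, H₀ ≤ H → H ≤ N → ∑ m ∈ Icc 1 N, S m H ≤ 20 * κ * H * N := by
  obtain ⟨H₁, hH₁⟩ := exists_nat_ge (L / κ)
  refine ⟨max (max M₀ H₁) 3, fun N H hH hN => ?_⟩
  have b1 : M₀ ≤ H := le_trans (le_trans (le_max_left _ _) (le_max_left _ _)) hH
  have b2 : H₁ ≤ H := le_trans (le_trans (le_max_right _ _) (le_max_left _ _)) hH
  have b3 : 3 ≤ H := le_trans (le_max_right _ _) hH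
  have hHr : (3 : ℝ) ≤ H := by exact_mod_cast b3
  have hNr : (H : ℝ) ≤ N := by exact_mod_cast hN
  have hLH : L ≤ κ * H := by
    rw [div_le_iff₀ hκ] at hH₁
    have : (H₁ : ℝ) ≤ H := by exact_mod_cast b2
    nlinarith
  have hL0 : 0 < L := by linarith
  have h1 : ∀ l ∈ range H, ∑ m ∈ Icc 1 N, T (m + l) ≤ κ * L * (2 * N + 1) := by
    intro l hl
    rw [Finset.mem_range] at hl
    have h3 : ∑ m ∈ Icc 1 N, T (m + l) = ∑ m ∈ (Icc 1 N).map (addRightEmbedding l), T m := by
      rw [Finset.sum_map]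
      rfl
    have h4 := h (2 * N + 1) (by omega)
    push_cast at h4
    refine le_trans ?_ h4
    rw [h3]
    refine Finset.sum_le_sum_of_subset_of_nonneg ?_ fun m _ _ => hT m
    intro x hx
    rw [Finset.mem_map] at hx
    obtain ⟨m, hm, rfl⟩ := hx
    rw [Finset.mem_Icc] at hm
    rw [Finset.mem_range]
    show m + l < 2 * N + 1
    omega
  calc ∑ m ∈ Icc 1 N, S m H ≤ ∑ m ∈ Icc 1 N, ((1 / L) * ∑ l ∈ range H, T (m + l) + L) :=
        Finset.sum_le_sum fun m _ => hS m H
    _ = (1 / L) * ∑ l ∈ range H, ∑ m ∈ Icc 1 N, T (m + l) + N * L := by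
        rw [Finset.sum_add_distrib, ← Finset.mul_sum, Finset.sum_comm, Finset.sum_const,
          Nat.card_Icc, nsmul_eq_mul]
        simp
    _ ≤ (1 / L) * ∑ l ∈ range H, κ * L * (2 * (N : ℝ) + 1) + N * (κ * H) := by
        apply add_le_add
        · exact mul_le_mul_of_nonneg_left (Finset.sum_le_sum h1) (by positivity)
        · exact mul_le_mul_of_nonneg_left hLH (by positivity)
    _ = κ * H * (2 * N + 1) + κ * H * N := by
        rw [Finset.sum_const, Finset.card_range, nsmul_eq_mul]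
        field_simp
    _ ≤ 20 * κ * H * N := by
        have : 0 < κ * H := by positivity
        nlinarith

end Pool.Agent.TH573.NI
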