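import Pool.Agent.TH573.NI.Gauge

/-!
The orbits of all nilrotations of a nilmanifold together have low complexity.
-/

set_option autoImplicit false

open scoped Pointwise commutatorElement Topology
open Filter

namespace Pool.Agent.TH573.NI

theorem log_small (a b η : ℝ) (ha : 0 ≤ a) (hη : 0 < η) :
    ∃ L₀ : ℕ, ∀ L : ℕ, L₀ ≤ L → a * (Nat.log 2 L : ℝ) + b ≤ η * L := by
  have h1 := Real.isLittleO_log_id_atTop
  have h2 : Tendsto (fun L : ℕ => a / Real.log 2 * (Real.log L / L) + b / L) atTop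
      (𝓝 (a / Real.log 2 * 0 + 0)) := by
    apply Tendsto.add
    · apply Tendsto.const_mul
      exact (h1.tendsto_div_nhds_zero).comp tendsto_natCast_atTop_atTop
    · exact tendsto_const_div_atTop_nhds_zero_nat b
  rw [mul_zero, add_zero] at h2
  obtain ⟨L₁, hL₁⟩ := eventually_atTop.1 (h2.eventually (gt_mem_nhds hη))
  refine ⟨max L₁ 1, fun L hL => ?_⟩
  have h3 := hL₁ L ((le_max_left _ _).trans hL)
  have hL1 : 1 ≤ L := (le_max_right _ _).trans hL
  have hL0 : (0 : ℝ) < L := by exact_mod_cast hL1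
  have hl2 : 0 < Real.log 2 := Real.log_pos (by norm_num)
  have h4 : (Nat.log 2 L : ℝ) ≤ Real.log L / Real.log 2 := by
    have := Real.natLog_le_logb L 2
    rw [Real.logb] at this
    exact_mod_cast this
  have h5 : a / Real.log 2 * (Real.log L / L) + b / L = (a * (Real.log L / Real.log 2) + b) / L := by
    field_simp
  rw [h5, div_lt_iff₀ hL0] at h3
  have h6 := mul_le_mul_of_nonneg_left h4 ha
  linarith

theorem low {G : Type} [Group G] [TopologicalSpace G] [IsTopologicalGroup G] [T2Space G]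
    [LocallyCompactSpace G] [ConnectedSpace G] {N : G → ℝ} (hN : Gauge N) (Γ : Subgroup G)
    (hΓ : DiscreteTopology Γ) (hc : CompactSpace (G ⧸ Γ)) (k : ℕ)
    (hk : (⊤ : Subgroup G).lowerCentralSeries k = ⊥) (F : G → ℂ) (hF : Continuous F)
    (hinv : ∀ g, ∀ γ ∈ Γ, F (g * γ) = F g) (hF1 : ∀ g, ‖F g‖ ≤ 1) :
    UE.LowC {a | ∃ g x : G, a = fun h : ℕ => F (g ^ h * x)} := by
  classical
  obtain ⟨K, hK, hcov, hrep⟩ := rep Γ hΓ hc k hk
  obtain ⟨r1, hr1, A, hA, hpert⟩ := perturb hN k hk K hK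
  obtain ⟨C, hC1, hnet⟩ := hN.net K hK
  intro ε hε η hη
  obtain ⟨U, hU, hUF⟩ := unif Γ K hK hcov F hF hinv ε hε
  obtain ⟨r2, hr2, hr2U⟩ := hN.nhd U hU
  obtain ⟨ρ, hρ⟩ : ∃ ρ, ρ = min r1 r2 := ⟨_, rfl⟩
  have hρ0 : 0 < ρ := by rw [hρ]; exact lt_min hr1 hr2
  obtain ⟨R, hR⟩ : ∃ R : ℝ, R = 2 ^ k * (2 * A) ^ (k + 1) := ⟨_, rfl⟩
  have hR0 : 0 < R := by rw [hR]; positivity
  obtain ⟨j₀, hj₀⟩ : ∃ j₀ : ℕ, R / ρ < 2 ^ j₀ := pow_unbounded_of_one_lt _ (by norm_num)
  obtain ⟨s, hs⟩ : ∃ s, s = k * (k + 1) := ⟨_, rfl⟩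
  have hlC : 0 ≤ Real.log C := Real.log_nonneg (by exact_mod_cast hC1)
  obtain ⟨L₀, hL₀⟩ := log_small (s * (k + 2) * Real.log C) ((s + j₀ + 1) * (k + 2) * Real.log C) η
    (by positivity) hη
  refine ⟨max L₀ 1, fun L hL => ?_⟩
  have hLa : L₀ ≤ L := (le_max_left _ _).trans hL
  have hLb : 1 ≤ L := (le_max_right _ _).trans hL
  obtain ⟨j, hj⟩ : ∃ j, j = s * (Nat.log 2 L + 1) + j₀ := ⟨_, rfl⟩
  obtain ⟨P, hPc, hP⟩ := hnet j
  have hLr : (1 : ℝ) ≤ L := by exact_mod_cast hLb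
  -- the numerical inequality
  obtain ⟨Q, hQ⟩ : ∃ Q : ℝ, Q = 2 * (L : ℝ) ^ k := ⟨_, rfl⟩
  have hLk : (1 : ℝ) ≤ (L : ℝ) ^ k := one_le_pow₀ hLr
  have hnum : A * Q * ((1 + A * Q) ^ k * (1 / 2 : ℝ) ^ j) ≤ ρ := by
    have hAQ : 1 ≤ A * Q := by rw [hQ]; nlinarith
    have h1 : (1 + A * Q) ^ k ≤ (2 * (A * Q)) ^ k :=
      pow_le_pow_left₀ (by linarith) (by linarith) k
    have h2 : A * Q * ((1 + A * Q) ^ k * (1 / 2 : ℝ) ^ j) ≤
        A * Q * ((2 * (A * Q)) ^ k * (1 / 2 : ℝ) ^ j) := by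
      refine mul_le_mul_of_nonneg_left ?_ (by linarith)
      exact mul_le_mul_of_nonneg_right h1 (by positivity)
    refine h2.trans ?_
    have h3 : A * Q * ((2 * (A * Q)) ^ k * (1 / 2 : ℝ) ^ j) = R * (L : ℝ) ^ s * (1 / 2 : ℝ) ^ j := by
      rw [hQ, hR, hs, mul_pow 2 (A * _), pow_mul]
      ring
    rw [h3]
    have h4 : (L : ℝ) ^ s ≤ 2 ^ (s * (Nat.log 2 L + 1)) := by
      rw [mul_comm s, pow_mul]
      apply pow_le_pow_left₀ (by positivity)
      have := Nat.lt_pow_succ_log_self (b := 2) (by norm_num) L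
      exact_mod_cast this.le
    have h5 : (1 / 2 : ℝ) ^ j * 2 ^ (s * (Nat.log 2 L + 1)) = (1 / 2 : ℝ) ^ j₀ := by
      rw [hj, pow_add]
      have : (1 / 2 : ℝ) ^ (s * (Nat.log 2 L + 1)) * 2 ^ (s * (Nat.log 2 L + 1)) = 1 := by
        rw [← mul_pow]
        norm_num
      calc _ = ((1 / 2 : ℝ) ^ (s * (Nat.log 2 L + 1)) * 2 ^ (s * (Nat.log 2 L + 1))) *
            (1 / 2 : ℝ) ^ j₀ := by ring
        _ = _ := by rw [this, one_mul]
    calc R * (L : ℝ) ^ s * (1 / 2 : ℝ) ^ j ≤ R * 2 ^ (s * (Nat.log 2 L + 1)) * (1 / 2 : ℝ) ^ j := by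
          refine mul_le_mul_of_nonneg_right ?_ (by positivity)
          exact mul_le_mul_of_nonneg_left h4 hR0.le
      _ = R * (1 / 2 : ℝ) ^ j₀ := by rw [← h5]; ring
      _ ≤ ρ := by
          rw [one_div, inv_pow, ← div_eq_mul_inv, div_le_iff₀ (by positivity)]
          rw [div_lt_iff₀ hρ0] at hj₀
          linarith
  -- the finite set of words
  let Pt : Finset (G × (Fin (k + 1) → G)) := P ×ˢ Fintype.piFinset (fun _ : Fin (k + 1) => P)
  let ext : (Fin (k + 1) → G) → ℕ → G := fun p i => if h : i < k + 1 then p ⟨i, h⟩ else 1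
  let ev : G × (Fin (k + 1) → G) → Fin L → ℂ := fun t m =>
    F (t.1 * (((ws m).filter (· ≤ k)).map (ext t.2)).prod)
  refine ⟨Pt.image ev, ?_, ?_, ?_⟩
  · have h1 : ((Pt.image ev).card : ℝ) ≤ ((C ^ (j + 1)) ^ (k + 2) : ℕ) := by
      have h2 : (Pt.image ev).card ≤ P.card * P.card ^ (k + 1) := by
        refine Finset.card_image_le.trans (le_of_eq ?_)
        rw [Finset.card_product, Fintype.card_piFinset, Finset.prod_const, Finset.card_univ,
          Fintype.card_fin]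
      have h3 : P.card * P.card ^ (k + 1) ≤ (C ^ (j + 1)) ^ (k + 2) := by
        calc P.card * P.card ^ (k + 1) = P.card ^ (k + 2) := by ring
          _ ≤ _ := Nat.pow_le_pow_left hPc _
      exact_mod_cast h2.trans h3
    refine h1.trans ?_
    have hC0 : (0 : ℝ) < C := by exact_mod_cast hC1
    push_cast
    rw [← pow_mul]
    have h4 : (C : ℝ) ^ ((j + 1) * (k + 2)) = Real.exp (((j + 1) * (k + 2) : ℕ) * Real.log C) := by
      rw [Real.exp_nat_mul, Real.exp_log hC0]
    rw [h4]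
    apply Real.exp_le_exp.2
    have h5 := hL₀ L hLa
    refine le_trans (le_of_eq ?_) h5
    rw [hj]
    push_cast
    ring
  · intro w hw m
    rw [Finset.mem_image] at hw
    obtain ⟨t, _, rfl⟩ := hw
    exact hF1 _
  · rintro a ⟨g, x, rfl⟩ m
    obtain ⟨c, hcK, γ, hγ, hy⟩ := hcov (g ^ (m + 1) * x)
    obtain ⟨κ, hκK, hκ1, hκ⟩ := hrep (γ * (x⁻¹ * g * x) * γ⁻¹)
    obtain ⟨pc, hpc, hpc2⟩ := hP c hcK
    choose p hp hp2 using fun i => hP (κ i) (hκK i)
    refine ⟨ev (pc, fun i => p i), Finset.mem_image_of_mem _ ?_, fun m' => ?_⟩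
    · rw [Finset.mem_product]
      exact ⟨hpc, Fintype.mem_piFinset.2 fun i => hp i⟩
    · obtain ⟨γ', hγ', hgm⟩ := hκ m'
      -- the value of the sequence
      have e1 : g ^ (m + (m' : ℕ) + 1) * x =
          c * (((ws m').filter (· ≤ k)).map κ).prod * (γ' * γ) := by
        have h1 : (γ * (x⁻¹ * g * x) * γ⁻¹) ^ (m' : ℕ) = γ * (x⁻¹ * g ^ (m' : ℕ) * x) * γ⁻¹ := by
          have h2 := conj_pow (i := (m' : ℕ)) (a := γ * x⁻¹) (b := g)
          have h3 : γ * x⁻¹ * g * (γ * x⁻¹)⁻¹ = γ * (x⁻¹ * g * x) * γ⁻¹ := by group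
          rw [h3] at h2
          rw [h2]
          group
        rw [wd_eq, prod_filter κ k hκ1] at hgm
        rw [h1] at hgm
        have h4 : (((ws (m' : ℕ)).filter (· ≤ k)).map κ).prod * γ' = γ * (x⁻¹ * g ^ (m' : ℕ) * x) * γ⁻¹ :=
          hgm.symm
        calc g ^ (m + (m' : ℕ) + 1) * x = (g ^ (m + 1) * x) * (x⁻¹ * g ^ (m' : ℕ) * x) := by
              rw [show m + (m' : ℕ) + 1 = (m + 1) + m' by ring, pow_add]
              group
          _ = c * (γ * (x⁻¹ * g ^ (m' : ℕ) * x) * γ⁻¹) * γ := by rw [hy]; group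
          _ = _ := by rw [← h4]; group
      have e2 : F (g ^ (m + (m' : ℕ) + 1) * x) =
          F (c * (((ws m').filter (· ≤ k)).map κ).prod) := by
        rw [e1, hinv _ _ (Γ.mul_mem hγ' hγ)]
      -- comparison
      let w : List ℕ := 0 :: (((ws (m' : ℕ)).filter (· ≤ k)).map (· + 1))
      let κh : ℕ → G := fun i => Nat.casesOn i c κ
      let κh' : ℕ → G := fun i => Nat.casesOn i pc (ext fun i => p i)
      have hw1 : (w.map κh).prod = c * (((ws (m' : ℕ)).filter (· ≤ k)).map κ).prod := by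
        show (κh 0 :: ((((ws (m' : ℕ)).filter (· ≤ k)).map (· + 1)).map κh)).prod = _
        rw [List.prod_cons, List.map_map]
        rfl
      have hw2 : (w.map κh').prod =
          pc * (((ws (m' : ℕ)).filter (· ≤ k)).map (ext fun i => p i)).prod := by
        show (κh' 0 :: ((((ws (m' : ℕ)).filter (· ≤ k)).map (· + 1)).map κh')).prod = _
        rw [List.prod_cons, List.map_map]
        rfl
      have hlen : (w.length : ℝ) ≤ Q := by
        have h1 := ws_count (m' : ℕ) k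
        have h2 : w.length = ((ws (m' : ℕ)).filter (· ≤ k)).length + 1 := by
          show (0 :: (((ws (m' : ℕ)).filter (· ≤ k)).map (· + 1))).length = _
          rw [List.length_cons, List.length_map]
        have h3 : ((m' : ℕ) + 1) ^ k ≤ L ^ k := Nat.pow_le_pow_left m'.2 k
        have h4 : w.length ≤ L ^ k + 1 := by omega
        have h5 : (w.length : ℝ) ≤ (L : ℝ) ^ k + 1 := by exact_mod_cast h4
        rw [hQ]
        linarith
      have hpt := hpert w κh κh' ((1 / 2 : ℝ) ^ j) (by positivity) (by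
        intro i hi
        rcases List.mem_cons.1 hi with rfl | h
        · exact hcK
        · rw [List.mem_map] at h
          obtain ⟨i', _, rfl⟩ := h
          exact hκK i') (by
        intro i hi
        rcases List.mem_cons.1 hi with rfl | h
        · exact hpc2
        · rw [List.mem_map] at h
          obtain ⟨i', hi', rfl⟩ := h
          rw [List.mem_filter] at hi'
          have h1 : i' ≤ k := by simpa using hi'.2
          show N (ext (fun i => p i) i' * (κ i')⁻¹) ≤ _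
          have h2 : ext (fun i => p i) i' = p i' := dif_pos (Nat.lt_succ_of_le h1)
          rw [h2]
          exact hp2 i') Q hlen (hnum.trans (by rw [hρ]; exact min_le_left _ _))
      have hAw : A * w.length * ((1 + A * Q) ^ k * (1 / 2 : ℝ) ^ j) ≤ ρ := by
        refine le_trans ?_ hnum
        refine mul_le_mul_of_nonneg_right ?_ ?_
        · exact mul_le_mul_of_nonneg_left hlen (by linarith)
        · have : 0 ≤ A * Q := by rw [hQ]; positivity
          positivity
      have hin := hr2U _ (hpt.trans (hAw.trans (by rw [hρ]; exact min_le_right _ _)))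
      have hfin := hUF _ hin (w.map κh).prod
      rw [inv_mul_cancel_right, hw1, hw2] at hfin
      show ‖F (g ^ (m + (m' : ℕ) + 1) * x) - F (pc * (((ws (m' : ℕ)).filter (· ≤ k)).map
        (ext fun i => p i)).prod)‖ ≤ ε
      rw [e2, norm_sub_rev]
      exact hfin

end Pool.Agent.TH573.NI
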