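import Pool.Agent.TH573.UE.Ces
import Pool.Agent.TH573.NI.Log

/-!
Short intervals: uniform orthogonality to all the members of a family of low complexity.
-/

set_option autoImplicit false

namespace Pool.Agent.TH573.NI

open Finset Filter Topology Pool.Agent.TH573.UE
open Pool.Agent.TH907.Sar (unit_norm)

theorem window (b : ℕ → ℂ) (hb : ∀ n, ‖b n‖ ≤ 1) (H L : ℕ) :
    (L : ℝ) * ‖∑ k ∈ range H, b k‖ ≤
      ∑ l ∈ range H, ‖∑ i ∈ range L, b (l + i)‖ + (L : ℝ) ^ 2 := by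
  have h1 : ∀ i : ℕ, ‖∑ k ∈ range H, b k - ∑ l ∈ range H, b (l + i)‖ ≤ 2 * i := by
    intro i
    induction i with
    | zero => simp
    | succ i ih =>
      have h2 : ‖∑ l ∈ range H, b (l + i) - ∑ l ∈ range H, b (l + (i + 1))‖ ≤ 2 := by
        have e : ∑ l ∈ range H, b (l + i) - ∑ l ∈ range H, b (l + (i + 1)) = b i - b (H + i) := by
          have h3 := Finset.sum_range_succ (fun l => b (l + i)) H
          have h4 := Finset.sum_range_succ' (fun l => b (l + i)) H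
          beta_reduce at h3 h4
          rw [h3] at h4
          have h5 : ∑ l ∈ range H, b (l + (i + 1)) = ∑ l ∈ range H, b (l + 1 + i) :=
            Finset.sum_congr rfl fun l _ => by rw [add_right_comm, add_assoc]
          rw [h5, eq_sub_of_add_eq h4, zero_add]
          ring
        rw [e]
        refine (norm_sub_le _ _).trans ?_
        have := hb i
        have := hb (H + i)
        linarith
      calc _ = ‖(∑ k ∈ range H, b k - ∑ l ∈ range H, b (l + i)) +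
            (∑ l ∈ range H, b (l + i) - ∑ l ∈ range H, b (l + (i + 1)))‖ := by
            congr 1
            ring
        _ ≤ _ := norm_add_le _ _
        _ ≤ 2 * i + 2 := add_le_add ih h2
        _ = _ := by push_cast; ring
  have h2 : (L : ℂ) * ∑ k ∈ range H, b k = ∑ l ∈ range H, ∑ i ∈ range L, b (l + i) +
      ∑ i ∈ range L, (∑ k ∈ range H, b k - ∑ l ∈ range H, b (l + i)) := by
    rw [Finset.sum_sub_distrib, Finset.sum_comm (s := range H) (t := range L), Finset.sum_const,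
      Finset.card_range, nsmul_eq_mul]
    ring
  calc (L : ℝ) * ‖∑ k ∈ range H, b k‖ = ‖(L : ℂ) * ∑ k ∈ range H, b k‖ := by
        rw [norm_mul, Complex.norm_natCast]
    _ ≤ ‖∑ l ∈ range H, ∑ i ∈ range L, b (l + i)‖ +
        ‖∑ i ∈ range L, (∑ k ∈ range H, b k - ∑ l ∈ range H, b (l + i))‖ := by
        rw [h2]
        exact norm_add_le _ _
    _ ≤ ∑ l ∈ range H, ‖∑ i ∈ range L, b (l + i)‖ + ∑ i ∈ range L, (2 * (i : ℝ)) := by
        apply add_le_add (norm_sum_le _ _)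
        exact (norm_sum_le _ _).trans (Finset.sum_le_sum fun i _ => h1 i)
    _ ≤ _ := by
        apply add_le_add le_rfl
        rw [← Finset.mul_sum]
        have h3 : (∑ i ∈ range L, (i : ℝ)) * 2 = L * (L - 1) := by
          have := Finset.sum_range_id_mul_two L
          rcases Nat.eq_zero_or_pos L with h | h
          · subst h; simp
          · have h4 : ((∑ i ∈ range L, i : ℕ) : ℝ) * 2 = L * ((L - 1 : ℕ) : ℝ) := by
              exact_mod_cast this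
            rw [Nat.cast_sub h] at h4
            push_cast at h4
            exact h4
        nlinarith [Nat.cast_nonneg (α := ℝ) L]

/-- the supremum over the family of the sums over a window -/
noncomputable def TT (A : Set (ℕ → ℂ)) (d : ℕ → ℂ) (L m : ℕ) : ℝ :=
  ⨆ p : A × ℕ, ‖∑ k ∈ range L, (p.1 : ℕ → ℂ) (p.2 + k + 1) * d (m + k + 1)‖

variable {A : Set (ℕ → ℂ)} {d : ℕ → ℂ}

theorem term_le (hA1 : ∀ a ∈ A, ∀ n, ‖a n‖ ≤ 1) (hd : ∀ n, ‖d n‖ ≤ 1) (L m : ℕ) (p : A × ℕ) :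
    ‖∑ k ∈ range L, (p.1 : ℕ → ℂ) (p.2 + k + 1) * d (m + k + 1)‖ ≤ L := by
  refine (norm_sum_le _ _).trans ?_
  calc ∑ k ∈ range L, ‖(p.1 : ℕ → ℂ) (p.2 + k + 1) * d (m + k + 1)‖ ≤ ∑ k ∈ range L, (1 : ℝ) := by
        refine Finset.sum_le_sum fun k _ => ?_
        rw [norm_mul]
        exact mul_le_one₀ (hA1 _ p.1.2 _) (norm_nonneg _) (hd _)
    _ = L := by rw [Finset.sum_const, Finset.card_range, nsmul_eq_mul, mul_one]

theorem TT_bdd (hA1 : ∀ a ∈ A, ∀ n, ‖a n‖ ≤ 1) (hd : ∀ n, ‖d n‖ ≤ 1) (L m : ℕ) :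
    BddAbove (Set.range fun p : A × ℕ =>
      ‖∑ k ∈ range L, (p.1 : ℕ → ℂ) (p.2 + k + 1) * d (m + k + 1)‖) :=
  ⟨L, by rintro _ ⟨p, rfl⟩; exact term_le hA1 hd L m p⟩

theorem TT_nonneg (L m : ℕ) : 0 ≤ TT A d L m := Real.iSup_nonneg fun _ => norm_nonneg _

theorem le_TT (hA1 : ∀ a ∈ A, ∀ n, ‖a n‖ ≤ 1) (hd : ∀ n, ‖d n‖ ≤ 1) (L m : ℕ) {a : ℕ → ℂ}
    (ha : a ∈ A) (s : ℕ) :
    ‖∑ k ∈ range L, a (s + k + 1) * d (m + k + 1)‖ ≤ TT A d L m :=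
  le_ciSup (TT_bdd hA1 hd L m) ((⟨a, ha⟩, s) : A × ℕ)

/-- the averages of the suprema are small -/
theorem TT_avg (u : ℕ → ℤˣ) (c : ℕ → ℝ) (hc : ∀ j, |c j| ≤ 1) (hf : Free u c)
    (hA : LowC A) (hA1 : ∀ a ∈ A, ∀ n, ‖a n‖ ≤ 1) (hne : A.Nonempty) (κ : ℝ) (hκ : 0 < κ) :
    ∃ L : ℕ, 1 ≤ L ∧ ∃ M₀ : ℕ, ∀ M, M₀ ≤ M →
      ∑ m ∈ range M, TT A (fun n => (c n : ℂ) * (((u n : ℤˣ) : ℤ) : ℂ)) L m ≤ κ * L * M := by
  obtain ⟨d, hd⟩ : ∃ d : ℕ → ℂ, d = fun n => (c n : ℂ) * (((u n : ℤˣ) : ℤ) : ℂ) := ⟨_, rfl⟩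
  rw [← hd]
  have hd1 : ∀ n, ‖d n‖ ≤ 1 := by
    intro n
    rw [hd]
    show ‖(c n : ℂ) * (((u n : ℤˣ) : ℤ) : ℂ)‖ ≤ 1
    rw [norm_mul, unit_norm, mul_one, Complex.norm_real, Real.norm_eq_abs]
    exact hc n
  obtain ⟨δ, hδ⟩ : ∃ δ : ℝ, δ = κ / 6 := ⟨_, rfl⟩
  have hδ0 : 0 < δ := by rw [hδ]; positivity
  obtain ⟨η, hη⟩ : ∃ η : ℝ, η = δ ^ 2 / 16 := ⟨_, rfl⟩
  have hη0 : 0 < η := by rw [hη]; positivity
  obtain ⟨L₁, hL₁⟩ := hA δ hδ0 η hη0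
  have hdec : ∀ᶠ L : ℕ in atTop, (4 * Real.exp (-(η * L))) ≤ δ := by
    have h1 : Tendsto (fun L : ℕ => (4 * Real.exp (-(η * L)))) atTop (𝓝 (4 * 0)) := by
      refine Tendsto.const_mul _ ?_
      refine Real.tendsto_exp_neg_atTop_nhds_zero.comp ?_
      exact Tendsto.const_mul_atTop hη0 tendsto_natCast_atTop_atTop
    rw [mul_zero] at h1
    exact (h1.eventually (gt_mem_nhds hδ0)).mono fun L hL => le_of_lt hL
  obtain ⟨L₂, hL₂⟩ := eventually_atTop.1 hdec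
  obtain ⟨J, hJ⟩ := exists_nat_ge (1 / δ)
  have hJ1 : 1 ≤ J := by
    have h1 : 0 < 1 / δ := by positivity
    have h2 : (0 : ℝ) < J := h1.trans_le hJ
    have : 0 < J := by exact_mod_cast h2
    omega
  have hJ0 : (0 : ℝ) < J := by exact_mod_cast hJ1
  have hJδ : 1 / (J : ℝ) ≤ δ := by
    rw [div_le_iff₀ hJ0]
    rw [div_le_iff₀ hδ0] at hJ
    linarith
  obtain ⟨L, hL⟩ : ∃ L, L = max (max L₁ L₂) 1 := ⟨_, rfl⟩
  have hLa : L₁ ≤ L := by rw [hL]; exact (le_max_left _ _).trans (le_max_left _ _)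
  have hLb : L₂ ≤ L := by rw [hL]; exact (le_max_right _ _).trans (le_max_left _ _)
  have hLc : 1 ≤ L := by rw [hL]; exact le_max_right _ _
  have hLr : (1 : ℝ) ≤ L := by exact_mod_cast hLc
  obtain ⟨W, hW1, hW2, hW3⟩ := hL₁ L hLa
  have hdL := hL₂ L hLb
  have hWe : (W.card : ℝ) * (4 * Real.exp (-(δ ^ 2 * L / 8))) ≤ δ := by
    calc (W.card : ℝ) * (4 * Real.exp (-(δ ^ 2 * L / 8)))
        ≤ Real.exp (η * L) * (4 * Real.exp (-(δ ^ 2 * L / 8))) :=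
          mul_le_mul_of_nonneg_right hW1 (by positivity)
      _ = 4 * Real.exp (-(η * L)) := by
          rw [mul_left_comm, ← Real.exp_add, hη]
          congr 2
          ring
      _ ≤ δ := hdL
  obtain ⟨M₀, hM₀⟩ := eventually_atTop.1 (strong u c hc hf J hJ1 L W hW2 δ hδ0.le δ hδ0.le δ hδ0)
  refine ⟨L, hLc, M₀, fun M hM => ?_⟩
  have hneP : Nonempty (A × ℕ) := ⟨(⟨hne.some, hne.some_mem⟩, 0)⟩
  have h1 : ∀ m, ∃ p : A × ℕ, TT A d L m - δ * L ≤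
      ‖∑ k ∈ range L, (p.1 : ℕ → ℂ) (p.2 + k + 1) * d (m + k + 1)‖ := by
    intro m
    obtain ⟨p, hp⟩ := exists_lt_of_lt_ciSup (show TT A d L m - δ * L < TT A d L m by
      have : 0 < δ * L := by positivity
      linarith)
    exact ⟨p, hp.le⟩
  choose p hp using h1
  have h2 := hM₀ M hM (fun m k => ((p m).1 : ℕ → ℂ) ((p m).2 + k + 1))
    (fun m k => hA1 _ (p m).1.2 _) (fun m => hW3 _ (p m).1.2 (p m).2)
  have h3 : ∀ m, ‖∑ k ∈ range L, ((p m).1 : ℕ → ℂ) ((p m).2 + k + 1) * d (m + k + 1)‖ =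
      ‖∑ k : Fin L, ((p m).1 : ℕ → ℂ) ((p m).2 + k + 1) * (c (m + k + 1) : ℂ) *
        (((u (m + k + 1) : ℤˣ) : ℤ) : ℂ)‖ := by
    intro m
    rw [← Fin.sum_univ_eq_sum_range (fun k => ((p m).1 : ℕ → ℂ) ((p m).2 + k + 1) * d (m + k + 1)) L,
      hd]
    congr 1
    exact Finset.sum_congr rfl fun k _ => by ring
  calc ∑ m ∈ range M, TT A d L m ≤ ∑ m ∈ range M,
        (‖∑ k ∈ range L, ((p m).1 : ℕ → ℂ) ((p m).2 + k + 1) * d (m + k + 1)‖ + δ * L) :=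
        Finset.sum_le_sum fun m _ => by linarith [hp m]
    _ = ∑ m ∈ range M, ‖∑ k : Fin L, ((p m).1 : ℕ → ℂ) ((p m).2 + k + 1) * (c (m + k + 1) : ℂ) *
        (((u (m + k + 1) : ℤˣ) : ℤ) : ℂ)‖ + M * (δ * L) := by
        rw [Finset.sum_add_distrib, Finset.sum_const, Finset.card_range, nsmul_eq_mul]
        simp_rw [h3]
    _ ≤ (δ + δ + δ + δ + δ) * (L * M) + M * (δ * L) := by
        apply add_le_add _ le_rfl
        refine h2.trans ?_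
        refine mul_le_mul_of_nonneg_right ?_ (by positivity)
        linarith
    _ = κ * L * M := by rw [hδ]; ring

/-- **Short intervals.** -/
theorem short (u : ℕ → ℤˣ) (c : ℕ → ℝ) (hc : ∀ j, |c j| ≤ 1) (hf : Free u c)
    (hA : LowC A) (hA1 : ∀ a ∈ A, ∀ n, ‖a n‖ ≤ 1) (hne : A.Nonempty) (ε : ℝ) (hε : 0 < ε) :
    ∃ H₀ : ℕ, ∀ N H : ℕ, H₀ ≤ H → H ≤ N →
      ∑ m ∈ Icc 1 N, (1 / (m : ℝ)) * (⨆ a : A, ‖∑ h ∈ Icc 1 H, (a : ℕ → ℂ) (h + m) *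
        ((c (m + h) : ℂ) * (((u (m + h) : ℤˣ) : ℤ) : ℂ))‖) ≤ ε * H * Real.log N ∧
      ∑ m ∈ Icc 1 N, (⨆ a : A, ‖∑ h ∈ Icc 1 H, (a : ℕ → ℂ) (h + m) *
        ((c (m + h) : ℂ) * (((u (m + h) : ℤˣ) : ℤ) : ℂ))‖) ≤ ε * H * N := by
  obtain ⟨L, hL, M₀, hM₀⟩ := TT_avg u c hc hf hA hA1 hne (ε / 20) (by positivity)
  obtain ⟨d, hd⟩ : ∃ d : ℕ → ℂ, d = fun n => (c n : ℂ) * (((u n : ℤˣ) : ℤ) : ℂ) := ⟨_, rfl⟩
  rw [← hd] at hM₀
  have hd1 : ∀ n, ‖d n‖ ≤ 1 := by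
    intro n
    rw [hd]
    show ‖(c n : ℂ) * (((u n : ℤˣ) : ℤ) : ℂ)‖ ≤ 1
    rw [norm_mul, unit_norm, mul_one, Complex.norm_real, Real.norm_eq_abs]
    exact hc n
  have hLr : (1 : ℝ) ≤ L := by exact_mod_cast hL
  have hS : ∀ m H : ℕ, (⨆ a : A, ‖∑ h ∈ Icc 1 H, (a : ℕ → ℂ) (h + m) * d (m + h)‖) ≤
      (1 / (L : ℝ)) * ∑ l ∈ range H, TT A d L (m + l) + L := by
    intro m H
    have : Nonempty A := ⟨⟨hne.some, hne.some_mem⟩⟩
    apply ciSup_le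
    intro a
    obtain ⟨b, hb⟩ : ∃ b : ℕ → ℂ, b = fun k => (a : ℕ → ℂ) (m + k + 1) * d (m + k + 1) := ⟨_, rfl⟩
    have hb1 : ∀ k, ‖b k‖ ≤ 1 := by
      intro k
      rw [hb, norm_mul]
      exact mul_le_one₀ (hA1 _ a.2 _) (norm_nonneg _) (hd1 _)
    have h1 := window b hb1 H L
    have h2 : ∑ h ∈ Icc 1 H, (a : ℕ → ℂ) (h + m) * d (m + h) = ∑ k ∈ range H, b k := by
      rw [Finset.range_eq_Ico, hb]
      have h3 := Finset.sum_Ico_add' (fun h => (a : ℕ → ℂ) (h + m) * d (m + h)) 0 H 1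
      rw [zero_add] at h3
      have h4 : Icc 1 H = Ico 1 (H + 1) := by
        ext x
        simp only [Finset.mem_Icc, Finset.mem_Ico]
        omega
      rw [h4, ← h3]
      refine Finset.sum_congr rfl fun k _ => ?_
      beta_reduce
      rw [show k + 1 + m = m + k + 1 by ring, show m + (k + 1) = m + k + 1 by ring]
    rw [h2]
    have h3 : ∀ l, ‖∑ i ∈ range L, b (l + i)‖ ≤ TT A d L (m + l) := by
      intro l
      have h4 := le_TT hA1 hd1 L (m + l) a.2 (m + l)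
      rw [hb]
      refine le_trans (le_of_eq ?_) h4
      congr 1
      refine Finset.sum_congr rfl fun k _ => ?_
      beta_reduce
      rw [← add_assoc m l k]
    have h4 : (L : ℝ) * ‖∑ k ∈ range H, b k‖ ≤ ∑ l ∈ range H, TT A d L (m + l) + (L : ℝ) ^ 2 :=
      h1.trans (add_le_add (Finset.sum_le_sum fun l _ => h3 l) le_rfl)
    have hL0 : (0 : ℝ) < L := by linarith
    have h5 : ‖∑ k ∈ range H, b k‖ ≤ (∑ l ∈ range H, TT A d L (m + l) + (L : ℝ) ^ 2) / L := by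
      rw [le_div_iff₀ hL0, mul_comm]
      exact h4
    refine h5.trans (le_of_eq ?_)
    field_simp
  obtain ⟨H₀, hH₀⟩ := logsum (TT A d L) L hLr (fun m => TT_nonneg L m) (ε / 20) (by positivity) M₀ hM₀
    (fun m H => ⨆ a : A, ‖∑ h ∈ Icc 1 H, (a : ℕ → ℂ) (h + m) * d (m + h)‖) hS
  obtain ⟨H₁, hH₁⟩ := natsum (TT A d L) L hLr (fun m => TT_nonneg L m) (ε / 20) (by positivity) M₀ hM₀
    (fun m H => ⨆ a : A, ‖∑ h ∈ Icc 1 H, (a : ℕ → ℂ) (h + m) * d (m + h)‖) hS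
  refine ⟨max H₀ H₁, fun N H h1 h2 => ⟨?_, ?_⟩⟩
  · have h3 := hH₀ N H ((le_max_left _ _).trans h1) h2
    rw [hd] at h3
    refine h3.trans (le_of_eq ?_)
    ring
  · have h3 := hH₁ N H ((le_max_right _ _).trans h1) h2
    rw [hd] at h3
    refine h3.trans (le_of_eq ?_)
    ring

end Pool.Agent.TH573.NI
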