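import Pool.Agent.TH573.UE.Ran
import Pool.Agent.TH573.NI.Short
import Pool.Agent.TH573.NI.Lie

/-!
Short-interval orthogonality to all nilrotations, uniformly in the rotation, for almost every sparse
modification.
-/

set_option autoImplicit false

namespace Pool.Agent.TH573.NI

open Finset Filter Topology Polynomial MeasureTheory
open Pool.Agent.H220M Pool.Agent.TH573.SM Pool.Agent.TH573.UE
open scoped Manifold

theorem exists_odd0 (P : ℤ[X]) (h : ¬ ∃ (c : ℤ) (G : ℤ[X]), P = C c * G ^ 2) :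
    ∃ β : ℂ, OddAt P β := by
  by_cases h1 : ∃ (c : ℤ) (j : ℕ) (G : ℤ[X]), P = C c * X ^ j * G ^ 2
  · obtain ⟨c, j, G, hP⟩ := h1
    have hc : c ≠ 0 := by
      rintro rfl
      exact h ⟨0, 0, by rw [hP]; simp⟩
    have hG : G ≠ 0 := by
      rintro rfl
      exact h ⟨0, 0, by rw [hP]; simp⟩
    have hj : Odd j := by
      rw [← Nat.not_even_iff_odd]
      rintro ⟨i, hi⟩
      exact h ⟨c, X ^ i * G, by rw [hP, hi]; ring⟩
    refine ⟨0, ?_⟩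
    have hGC := toC_ne hG
    have e : toC P = C (c : ℂ) * ((X - C (0 : ℂ)) ^ j * (toC G * toC G)) := by
      unfold toC
      rw [hP]
      simp [sq]
      ring
    have hcc : (C (c : ℂ) : ℂ[X]) ≠ 0 := C_ne_zero.2 (by exact_mod_cast hc)
    have hX : ((X - C (0 : ℂ)) ^ j : ℂ[X]) ≠ 0 := pow_ne_zero _ (X_sub_C_ne_zero _)
    unfold OddAt
    rw [e, rootMultiplicity_mul (mul_ne_zero hcc (mul_ne_zero hX (mul_ne_zero hGC hGC))),
      rootMultiplicity_C, rootMultiplicity_mul (mul_ne_zero hX (mul_ne_zero hGC hGC)),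
      rootMultiplicity_X_sub_C_pow, rootMultiplicity_mul (mul_ne_zero hGC hGC)]
    obtain ⟨i, hi⟩ := hj
    exact ⟨i + (toC G).rootMultiplicity 0, by rw [hi]; ring⟩
  · obtain ⟨α, -, hα⟩ := exists_odd P h1
    exact ⟨α, hα⟩

open Classical in
/-- the weight, cut off at the zeros of the polynomial -/
noncomputable def cw1 (w : ℕ → ℝ) (P : ℤ[X]) (j : ℕ) : ℝ :=
  if P.eval (j : ℤ) = 0 then 0 else w j

theorem cw1_abs (w : ℕ → ℝ) (hw : ∀ n, |w n| ≤ 1) (P : ℤ[X]) (j : ℕ) : |cw1 w P j| ≤ 1 := by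
  unfold cw1
  split_ifs
  · simp
  · exact hw _

/-- the index set of the weights -/
abbrev Idx1 := ℕ × ℤ[X] × ℕ × (Σ L : ℕ, Fin L → ℤ)

theorem idx1_countable : Countable Idx1 := by
  have := countable_poly
  infer_instance

open Classical in
/-- the weights -/
noncomputable def wt1 (w : ℕ → ℕ → ℝ) (i : Idx1) (n : ℕ) : ℝ :=
  if inClass (cw1 (w i.1) i.2.1) i.2.2.1 i.2.2.2.1 i.2.2.2.2 n then 1 else 0

theorem free_one (g : ℕ →*₀ ℤ) (hg : ∀ p : ℕ, p.Prime → g p = 1 ∨ g p = -1)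
    (w : ℕ → ℕ → ℝ) :
    ∀ᵐ ω ∂coins, ∃ (f : ℕ →*₀ ℤ) (u : ℕ → ℤˣ), IsModif g sparse ω f ∧
      (∀ m : ℕ, m ≠ 0 → f m = ((u m : ℤˣ) : ℤ)) ∧
      ∀ (s : ℕ) (P : ℤ[X]), (¬ ∃ (c : ℤ) (G : ℤ[X]), P = C c * G ^ 2) →
          Free (fun j => u (P.eval (j : ℤ)).natAbs) (cw1 (w s) P) := by
  classical
  have := idx1_countable
  obtain ⟨e, he⟩ : ∃ e : ℕ → Idx1, Function.Surjective e := exists_surjective_nat Idx1
  obtain ⟨g', hg'⟩ := exists_unit g hg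
  filter_upwards [Pool.Agent.TH573.SM.main g hg (fun i n => wt1 w (e i) n) (fun i n => by
    unfold wt1
    split_ifs <;> simp)] with ω hω
  obtain ⟨f, ⟨hf, hF⟩, -⟩ := hω
  obtain ⟨f', hf', hfm⟩ := isModif_exists g g' hg' sparse ω
  have hff : f = f' := isModif_unique g sparse ω f f' hf hf'
  subst hff
  refine ⟨f, modif g' sparse ω, hf, hfm, ?_⟩
  intro s P hP J L κ S hS
  obtain ⟨i, hi⟩ := he (s, P, J, ⟨L, κ⟩)
  have hodd : ∃ β, OddAt P β := exists_odd0 P hP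
  have hR0 : P ≠ 0 := by
    obtain ⟨β, hβ⟩ := hodd
    exact hβ.ne
  obtain ⟨S', hS'⟩ : ∃ S' : Finset ℕ, S' = S.map Fin.valEmbedding := ⟨_, rfl⟩
  have hS'n : S'.Nonempty := by rw [hS']; exact hS.map
  obtain ⟨γ, hγ⟩ := odd_shift P hodd S' hS'n
  obtain ⟨F, hFdef⟩ : ∃ F, F = ∏ k ∈ S', P.comp (C 1 * X + C ((k : ℤ) + 1)) := ⟨_, rfl⟩
  rw [← hFdef] at hγ
  have h1 := hF F (not_sq F γ hγ) i 0 1
  have hfilt : ∀ x : ℕ, (Icc 1 x).filter (fun n => n ≡ 0 [MOD 1]) = Icc 1 x := by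
    intro x
    apply Finset.filter_true_of_mem
    intro n _
    exact Nat.modEq_one
  simp_rw [hfilt] at h1
  obtain ⟨j₀, hj₀⟩ := no_roots P hR0
  have hev : ∀ n : ℕ, F.eval (n : ℤ) = ∏ k ∈ S, P.eval (((n + k + 1 : ℕ) : ℤ)) := by
    intro n
    rw [hFdef, eval_prod, hS', Finset.prod_map]
    apply Finset.prod_congr rfl
    intro k _
    rw [eval_comp]
    congr 1
    simp only [eval_add, eval_mul, eval_C, eval_X, Fin.valEmbedding_apply]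
    push_cast
    ring
  refine change (fun n => wt1 w (e i) n * ((f (F.eval (n : ℤ)).natAbs : ℤ) : ℝ)) _ j₀ ?_ ?_ ?_ h1
  · intro n hn
    beta_reduce
    rw [hi]
    have e1 : ((f (F.eval (n : ℤ)).natAbs : ℤ) : ℝ) = ∏ k ∈ S,
        (((modif g' sparse ω (P.eval ((n + k + 1 : ℕ) : ℤ)).natAbs : ℤˣ) : ℤ) : ℝ) := by
      have hna : (∏ k ∈ S, P.eval (((n + k + 1 : ℕ) : ℤ))).natAbs =
          ∏ k ∈ S, (P.eval (((n + k + 1 : ℕ) : ℤ))).natAbs := map_prod Int.natAbsHom _ _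
      rw [hev, hna, map_prod]
      push_cast
      apply Finset.prod_congr rfl
      intro k _
      have h2 : (P.eval ((n + k + 1 : ℕ) : ℤ)).natAbs ≠ 0 := by
        rw [Int.natAbs_ne_zero]
        exact hj₀ _ (by omega)
      push_cast at h2 ⊢
      rw [hfm _ h2]
    rw [e1]
    rfl
  · intro n
    beta_reduce
    rw [abs_mul]
    refine mul_le_one₀ ?_ (abs_nonneg _) ?_
    · unfold wt1
      split_ifs <;> simp
    · by_cases h0 : (F.eval (n : ℤ)).natAbs = 0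
      · rw [h0, map_zero]
        simp
      · rw [hfm _ h0, M6.unit_abs]
  · intro n
    rw [abs_mul]
    refine mul_le_one₀ ?_ (abs_nonneg _) ?_
    · split_ifs <;> simp
    · rw [Finset.abs_prod]
      refine Finset.prod_le_one (fun _ _ => abs_nonneg _) fun k _ => ?_
      rw [M6.unit_abs]

/-- the sum over a short interval, with the supremum over all nilrotations and base points -/
theorem nil_short (f : ℕ →*₀ ℤ) (u : ℕ → ℤˣ) (hfu : ∀ m : ℕ, m ≠ 0 → f m = ((u m : ℤˣ) : ℤ))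
    (w : ℕ → ℝ) (hw : ∀ n, |w n| ≤ 1) (P : ℤ[X])
    (hfree : Free (fun j => u (P.eval (j : ℤ)).natAbs) (cw1 w P))
    (E : Type) [NormedAddCommGroup E] [NormedSpace ℝ E] [FiniteDimensional ℝ E]
    (G : Type) [Group G] [TopologicalSpace G] [ChartedSpace E G]
    [LieGroup 𝓘(ℝ, E) ((⊤ : ℕ∞) : WithTop ℕ∞) G] [ConnectedSpace G] [Group.IsNilpotent G]
    (Γ : Subgroup G) (hΓ : DiscreteTopology Γ) (hc : CompactSpace (G ⧸ Γ))
    (φ : G ⧸ Γ → ℂ) (hφ : Continuous φ) (ε : ℝ) (hε : 0 < ε) :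
    ∃ H₀ : ℕ, ∀ N H : ℕ, H₀ ≤ H → H ≤ N →
      ∑ n ∈ Icc 1 N, (1 / (n : ℝ)) * (⨆ p : G × G, ‖∑ h ∈ Icc 1 H,
        φ (QuotientGroup.mk (p.1 ^ (h + n) * p.2)) * ((w (n + h) : ℂ) *
          (((f (P.eval ((n + h : ℕ) : ℤ)).natAbs : ℤ) : ℝ) : ℂ))‖) ≤ ε * H * Real.log N ∧
      ∑ n ∈ Icc 1 N, (⨆ p : G × G, ‖∑ h ∈ Icc 1 H,
        φ (QuotientGroup.mk (p.1 ^ (h + n) * p.2)) * ((w (n + h) : ℂ) *
          (((f (P.eval ((n + h : ℕ) : ℤ)).natAbs : ℤ) : ℝ) : ℂ))‖) ≤ ε * H * N := by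
  have hTG : IsTopologicalGroup G := topologicalGroup_of_lieGroup 𝓘(ℝ, E) ((⊤ : ℕ∞) : WithTop ℕ∞)
  have hT1 : T1Space G := ChartedSpace.t1Space E G
  have hT2 : T2Space G := inferInstance
  have hLC : LocallyCompactSpace G := Manifold.locallyCompact_of_finiteDimensional 𝓘(ℝ, E)
  obtain ⟨k, hk⟩ : ∃ k, (⊤ : Subgroup G).lowerCentralSeries k = ⊥ :=
    Subgroup.nilpotent_iff_lowerCentralSeries.1 inferInstance
  obtain ⟨B, hB⟩ : ∃ B : ℝ, ∀ q : G ⧸ Γ, ‖φ q‖ ≤ B := by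
    obtain ⟨B, hB⟩ := (isCompact_univ (X := G ⧸ Γ)).exists_bound_of_continuousOn hφ.continuousOn
    exact ⟨B, fun q => hB q (Set.mem_univ q)⟩
  obtain ⟨B', hB'⟩ : ∃ B', B' = max B 1 := ⟨_, rfl⟩
  have hB1 : 0 < B' := by rw [hB']; positivity
  have hBB : ∀ q : G ⧸ Γ, ‖φ q‖ ≤ B' := fun q => (hB q).trans (by rw [hB']; exact le_max_left _ _)
  obtain ⟨F, hF⟩ : ∃ F : G → ℂ, F = fun x => (B' : ℂ)⁻¹ * φ (QuotientGroup.mk x) := ⟨_, rfl⟩
  have hFc : Continuous F := by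
    rw [hF]
    exact continuous_const.mul (hφ.comp QuotientGroup.continuous_mk)
  have hFi : ∀ x, ∀ γ ∈ Γ, F (x * γ) = F x := by
    intro x γ hγ
    rw [hF]
    beta_reduce
    rw [QuotientGroup.mk_mul_of_mem x hγ]
  have hF1 : ∀ x, ‖F x‖ ≤ 1 := by
    intro x
    rw [hF]
    beta_reduce
    rw [norm_mul, norm_inv, Complex.norm_real, Real.norm_eq_abs, abs_of_pos hB1,
      inv_mul_le_iff₀ hB1, mul_one]
    exact hBB _
  have hlow := low (gauge (E := E) (G := G)) Γ hΓ hc k hk F hFc hFi hF1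
  obtain ⟨A, hA⟩ : ∃ A : Set (ℕ → ℂ), A = {a | ∃ g x : G, a = fun h : ℕ => F (g ^ h * x)} :=
    ⟨_, rfl⟩
  rw [← hA] at hlow
  have hA1 : ∀ a ∈ A, ∀ n, ‖a n‖ ≤ 1 := by
    intro a ha n
    rw [hA] at ha
    obtain ⟨g, x, rfl⟩ := ha
    exact hF1 _
  have hAne : A.Nonempty := by
    rw [hA]
    exact ⟨_, 1, 1, rfl⟩
  obtain ⟨H₀, hH₀⟩ := short (fun j => u (P.eval (j : ℤ)).natAbs) (cw1 w P) (cw1_abs w hw P) hfree
    hlow hA1 hAne (ε / B') (by positivity)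
  refine ⟨H₀, fun N H h1 h2 => ?_⟩
  have h3 := hH₀ N H h1 h2
  have h4 : ∀ n : ℕ, (⨆ p : G × G, ‖∑ h ∈ Icc 1 H,
        φ (QuotientGroup.mk (p.1 ^ (h + n) * p.2)) * ((w (n + h) : ℂ) *
          (((f (P.eval ((n + h : ℕ) : ℤ)).natAbs : ℤ) : ℝ) : ℂ))‖) ≤
      B' * (⨆ a : A, ‖∑ h ∈ Icc 1 H, (a : ℕ → ℂ) (h + n) *
        ((cw1 w P (n + h) : ℂ) * (((u (P.eval ((n + h : ℕ) : ℤ)).natAbs : ℤˣ) : ℤ) : ℂ))‖) := by
    intro n
    apply ciSup_le
    intro p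
    have hb : BddAbove (Set.range fun a : A => ‖∑ h ∈ Icc 1 H, (a : ℕ → ℂ) (h + n) *
        ((cw1 w P (n + h) : ℂ) * (((u (P.eval ((n + h : ℕ) : ℤ)).natAbs : ℤˣ) : ℤ) : ℂ))‖) := by
      refine ⟨∑ h ∈ Icc 1 H, (1 : ℝ), ?_⟩
      rintro _ ⟨a, rfl⟩
      refine (norm_sum_le _ _).trans (Finset.sum_le_sum fun h _ => ?_)
      rw [norm_mul, norm_mul, Pool.Agent.TH907.Sar.unit_norm, mul_one, Complex.norm_real,
        Real.norm_eq_abs]
      exact mul_le_one₀ (hA1 _ a.2 _) (abs_nonneg _) (cw1_abs w hw P _)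
    have h5 := le_ciSup hb ⟨fun h : ℕ => F (p.1 ^ h * p.2), by rw [hA]; exact ⟨p.1, p.2, rfl⟩⟩
    refine le_trans ?_ (mul_le_mul_of_nonneg_left h5 hB1.le)
    have h6 : ∑ h ∈ Icc 1 H, φ (QuotientGroup.mk (p.1 ^ (h + n) * p.2)) * ((w (n + h) : ℂ) *
          (((f (P.eval ((n + h : ℕ) : ℤ)).natAbs : ℤ) : ℝ) : ℂ)) =
        (B' : ℂ) * ∑ h ∈ Icc 1 H, F (p.1 ^ (h + n) * p.2) * ((cw1 w P (n + h) : ℂ) *
          (((u (P.eval ((n + h : ℕ) : ℤ)).natAbs : ℤˣ) : ℤ) : ℂ)) := by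
      rw [Finset.mul_sum]
      refine Finset.sum_congr rfl fun h _ => ?_
      have hBc : (B' : ℂ) ≠ 0 := by exact_mod_cast hB1.ne'
      rw [hF]
      beta_reduce
      have h7 : (w (n + h) : ℂ) * (((f (P.eval ((n + h : ℕ) : ℤ)).natAbs : ℤ) : ℝ) : ℂ) =
          (cw1 w P (n + h) : ℂ) * (((u (P.eval ((n + h : ℕ) : ℤ)).natAbs : ℤˣ) : ℤ) : ℂ) := by
        unfold cw1
        by_cases h0 : P.eval ((n + h : ℕ) : ℤ) = 0
        · rw [if_pos h0, h0]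
          simp
        · rw [if_neg h0, hfu _ (Int.natAbs_ne_zero.2 h0)]
          push_cast
          rfl
      rw [h7, ← mul_assoc (B' : ℂ), ← mul_assoc (B' : ℂ), mul_inv_cancel₀ hBc, one_mul]
    rw [h6, norm_mul, Complex.norm_real, Real.norm_eq_abs, abs_of_pos hB1]
  constructor
  · have h5 := mul_le_mul_of_nonneg_left h3.1 hB1.le
    rw [Finset.mul_sum] at h5
    refine le_trans (Finset.sum_le_sum fun n _ => ?_) (h5.trans (le_of_eq ?_))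
    · rw [mul_left_comm]
      exact mul_le_mul_of_nonneg_left (h4 n) (by positivity)
    · field_simp
  · have h5 := mul_le_mul_of_nonneg_left h3.2 hB1.le
    rw [Finset.mul_sum] at h5
    refine le_trans (Finset.sum_le_sum fun n _ => h4 n) (h5.trans (le_of_eq ?_))
    field_simp

end Pool.Agent.TH573.NI
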