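import Pool.Agent.TH573.NI.Alg
import Pool.Agent.H440N.TaskC

/-!
Powers in a connected nilpotent group modulo a discrete cocompact subgroup are given by universal
words in boundedly many parameters from a fixed compact set.
-/

set_option autoImplicit false

open scoped Pointwise commutatorElement

namespace Pool.Agent.TH573.NI

theorem top_conn {G : Type} [Group G] [TopologicalSpace G] [IsTopologicalGroup G] [T2Space G]
    [LocallyCompactSpace G] [ConnectedSpace G] (Γ : Subgroup G) (hΓ : DiscreteTopology Γ)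
    (hc : CompactSpace (G ⧸ Γ)) :
    ∃ (K : Set G) (T : Finset G), IsCompact K ∧ (∀ t ∈ T, t ∈ Γ) ∧
      ∀ x : G, ∃ c ∈ K, ∃ γ ∈ Subgroup.closure (T : Set G), x = c * γ := by
  classical
  obtain ⟨V, hVc, hV⟩ := exists_compact_mem_nhds (1 : G)
  have hVtop : Subgroup.closure V = ⊤ := by
    have ho : IsOpen ((Subgroup.closure V : Subgroup G) : Set G) :=
      (Subgroup.closure V).isOpen_of_mem_nhds (Filter.mem_of_superset hV Subgroup.subset_closure)
    have hcl : IsClosed ((Subgroup.closure V : Subgroup G) : Set G) :=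
      (Subgroup.closure V).isClosed_of_isOpen ho
    have h1 : IsClopen ((Subgroup.closure V : Subgroup G) : Set G) := ⟨hcl, ho⟩
    have h2 := h1.eq_univ ⟨1, Subgroup.one_mem _⟩
    rw [eq_top_iff]
    intro x _
    have : x ∈ ((Subgroup.closure V : Subgroup G) : Set G) := by rw [h2]; trivial
    exact this
  -- a compact set of representatives
  obtain ⟨F, hF⟩ := (isCompact_univ (X := G ⧸ Γ)).elim_finite_subcover
    (fun y : G => (QuotientGroup.mk : G → G ⧸ Γ) '' ((fun v => (y : G) * v) '' interior V))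
    (fun y => by
      apply QuotientGroup.isOpenMap_coe
      exact (Homeomorph.mulLeft (y : G)).isOpenMap _ isOpen_interior)
    (by
      intro x _
      obtain ⟨x, rfl⟩ := QuotientGroup.mk_surjective x
      refine Set.mem_iUnion.2 ⟨x, x, ⟨1, mem_interior_iff_mem_nhds.2 hV, mul_one x⟩, rfl⟩)
  set K1 : Set G := {1} ∪ ⋃ y ∈ F, (fun v => (y : G) * v) '' V with hK1
  have hK1c : IsCompact K1 := by
    apply isCompact_singleton.union
    exact F.isCompact_biUnion (fun y _ => hVc.image (continuous_mul_left _))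
  have h1K : (1 : G) ∈ K1 := Or.inl rfl
  have hcov : ∀ x : G, ∃ κ ∈ K1, κ⁻¹ * x ∈ Γ := by
    intro x
    have := hF (Set.mem_univ (QuotientGroup.mk x : G ⧸ Γ))
    simp only [Set.mem_iUnion] at this
    obtain ⟨y, hy, z, ⟨v, hv, rfl⟩, e⟩ := this
    refine ⟨(y : G) * v, Or.inr ?_, (QuotientGroup.eq).1 e⟩
    simp only [Set.mem_iUnion]
    exact ⟨y, hy, v, interior_subset hv, rfl⟩
  set M' : Set G := V ∪ V⁻¹ with hM'
  have hM'c : IsCompact M' := hVc.union hVc.inv
  have hCc : IsCompact (K1⁻¹ * M' * K1) := (hK1c.inv.mul hM'c).mul hK1c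
  have hWc : IsCompact ((Γ : Set G) ∩ (K1⁻¹ * M' * K1)) :=
    hCc.inter_left Γ.isClosed_of_discrete
  have hWf : ((Γ : Set G) ∩ (K1⁻¹ * M' * K1)).Finite := by
    apply hWc.finite
    have hd : IsDiscrete (Γ : Set G) := ⟨hΓ⟩
    exact hd.mono Set.inter_subset_left
  set T := hWf.toFinset with hT
  have hTmem : ∀ t, t ∈ T ↔ t ∈ Γ ∧ t ∈ K1⁻¹ * M' * K1 := by
    intro t; rw [hT, Set.Finite.mem_toFinset]; rfl
  have hstep : ∀ m ∈ M', ∀ y, (∃ κ ∈ K1, κ⁻¹ * y ∈ Subgroup.closure (T : Set G)) →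
      ∃ κ ∈ K1, κ⁻¹ * (m * y) ∈ Subgroup.closure (T : Set G) := by
    rintro m hm y ⟨κ, hκ, hy⟩
    obtain ⟨κ', hκ', hγ⟩ := hcov (m * κ)
    refine ⟨κ', hκ', ?_⟩
    have e : κ'⁻¹ * (m * y) = (κ'⁻¹ * (m * κ)) * (κ⁻¹ * y) := by group
    rw [e]
    refine Subgroup.mul_mem _ (Subgroup.subset_closure ?_) hy
    rw [Finset.mem_coe, hTmem]
    refine ⟨hγ, ?_⟩
    rw [← mul_assoc]
    exact Set.mul_mem_mul (Set.mul_mem_mul (Set.inv_mem_inv.2 hκ') hm) hκ
  have hall : ∀ x : G, ∃ κ ∈ K1, κ⁻¹ * x ∈ Subgroup.closure (T : Set G) := by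
    intro x
    have hx : x ∈ Subgroup.closure V := by rw [hVtop]; trivial
    induction hx using Subgroup.closure_induction_left with
    | one => exact ⟨1, h1K, by simpa using Subgroup.one_mem _⟩
    | mul_left m hm y _ ih => exact hstep m (Or.inl hm) y ih
    | inv_mul_cancel m hm y _ ih =>
      exact hstep m⁻¹ (Or.inr (Set.inv_mem_inv.2 hm)) y ih
  refine ⟨K1, T, hK1c, fun t ht => ((hTmem t).1 ht).1, fun x => ?_⟩
  obtain ⟨κ, hκ, h⟩ := hall x
  exact ⟨κ, hκ, κ⁻¹ * x, h, by group⟩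

/-- the scale of compact sets -/
def Sc {G : Type} [Group G] (K : Set G) : ℕ → Set G
  | 0 => K
  | j + 1 => Sc K j * Sc K j

theorem sc_lev {G : Type} [Group G] {K : Set G} (h1 : (1 : G) ∈ K) (hi : K⁻¹ = K) : Lev (Sc K) := by
  have hone : ∀ j, (1 : G) ∈ Sc K j := by
    intro j
    induction j with
    | zero => exact h1
    | succ j ih => exact ⟨1, ih, 1, ih, mul_one 1⟩
  refine ⟨hone, fun j x y hx hy => Set.mul_mem_mul hx hy, fun j => ?_⟩
  induction j with
  | zero =>
    intro x hx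
    show x⁻¹ ∈ K
    rw [← hi]
    exact Set.inv_mem_inv.2 hx
  | succ j ih =>
    rintro x ⟨a, ha, b, hb, rfl⟩
    refine ⟨b⁻¹, ih b hb, a⁻¹, ih a ha, ?_⟩
    show b⁻¹ * a⁻¹ = (a * b)⁻¹
    group

theorem sc_cpt {G : Type} [Group G] [TopologicalSpace G] [IsTopologicalGroup G] {K : Set G}
    (hK : IsCompact K) (j : ℕ) : IsCompact (Sc K j) := by
  induction j with
  | zero => exact hK
  | succ j ih => exact ih.mul ih

/-- the universal words -/
def wd {G : Type} [Group G] (κ : ℕ → G) (m : ℕ) : List G :=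
  (List.replicate m ()).sublists'.map (fun l => κ l.length)

theorem rep {G : Type} [Group G] [TopologicalSpace G] [IsTopologicalGroup G] [T2Space G]
    [LocallyCompactSpace G] [ConnectedSpace G] (Γ : Subgroup G) (hΓ : DiscreteTopology Γ)
    (hc : CompactSpace (G ⧸ Γ)) (k : ℕ) (hk : (⊤ : Subgroup G).lowerCentralSeries k = ⊥) :
    ∃ K : Set G, IsCompact K ∧ (∀ x : G, ∃ c ∈ K, ∃ γ ∈ Γ, x = c * γ) ∧
      ∀ g : G, ∃ κ : ℕ → G, (∀ i, κ i ∈ K) ∧ (∀ i, k < i → κ i = 1) ∧
        ∀ m : ℕ, ∃ γ ∈ Γ, g ^ m = (wd κ m).prod * γ := by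
  classical
  obtain ⟨K0, T, hK0, hTΓ, hcov⟩ := top_conn Γ hΓ hc
  obtain ⟨K, hK⟩ : ∃ K : Set G, K = (K0 ∪ (T : Set G) ∪ {1}) ∪ (K0 ∪ (T : Set G) ∪ {1})⁻¹ :=
    ⟨_, rfl⟩
  have hKc0 : IsCompact (K0 ∪ (T : Set G) ∪ {1}) :=
    (hK0.union T.finite_toSet.isCompact).union isCompact_singleton
  have hKc : IsCompact K := by rw [hK]; exact hKc0.union hKc0.inv
  have h1K : (1 : G) ∈ K := by rw [hK]; exact Or.inl (Or.inr rfl)
  have hKi : K⁻¹ = K := by rw [hK, Set.union_inv, inv_inv, Set.union_comm]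
  have hB := sc_lev h1K hKi
  have hK0K : K0 ⊆ K := by rw [hK]; exact fun x hx => Or.inl (Or.inl (Or.inl hx))
  have hTK : (T : Set G) ⊆ K := by rw [hK]; exact fun x hx => Or.inl (Or.inl (Or.inr hx))
  obtain ⟨cc, hcc⟩ : ∃ cc, cc = T.card + 1 := ⟨_, rfl⟩
  have hfa := fun i => final_alg (Sc K) hB 0 cc k k i (Nat.le_add_left k i)
  choose J hJ using hfa
  obtain ⟨JJ, hJJ⟩ : ∃ JJ, ∀ i ≤ k, J i ≤ JJ :=
    ⟨(Finset.range (k + 1)).sup J, fun i hi =>
      Finset.le_sup (f := J) (Finset.mem_range.2 (Nat.lt_succ_of_le hi))⟩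
  refine ⟨Sc K JJ, sc_cpt hKc JJ, ?_, ?_⟩
  · intro x
    obtain ⟨c, hc', γ, hγ, e⟩ := hcov x
    exact ⟨c, hB.mono (Nat.zero_le JJ) (hK0K hc'), γ, (Subgroup.closure_le Γ).2 hTΓ hγ, e⟩
  intro g
  obtain ⟨c₁, hc₁, γ₁, hγ₁, hg₁⟩ := hcov g
  set L := Subgroup.closure ((T : Set G) ∪ {c₁}) with hL
  have hcL : c₁ ∈ L := Subgroup.subset_closure (Or.inr rfl)
  have hTL : (T : Set G) ⊆ (L : Set G) := fun t ht => Subgroup.subset_closure (Or.inl ht)
  have hTle : Subgroup.closure (T : Set G) ≤ L := (Subgroup.closure_le L).2 hTL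
  have hTleΓ : Subgroup.closure (T : Set G) ≤ Γ := (Subgroup.closure_le Γ).2 hTΓ
  have hgL : g ∈ L := by rw [hg₁]; exact L.mul_mem hcL (hTle hγ₁)
  have hinj : Function.Injective (Subtype.val : L → G) := Subtype.val_injective
  have hSf : ((Subtype.val : L → G) ⁻¹' ((T : Set G) ∪ {c₁})).Finite :=
    (T.finite_toSet.union (Set.finite_singleton c₁)).preimage hinj.injOn
  have hTf : ((Subtype.val : L → G) ⁻¹' (T : Set G)).Finite :=
    T.finite_toSet.preimage hinj.injOn
  have hS : Subgroup.closure ((hSf.toFinset : Finset L) : Set L) = ⊤ := by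
    rw [Set.Finite.coe_toFinset]
    exact Subgroup.closure_closure_coe_preimage
  have hmap : (Subgroup.closure ((hTf.toFinset : Finset L) : Set L)).map L.subtype =
      Subgroup.closure (T : Set G) := by
    rw [Set.Finite.coe_toFinset, MonoidHom.map_closure]
    congr 1
    ext x
    constructor
    · rintro ⟨y, hy, rfl⟩; exact hy
    · intro hx; exact ⟨⟨x, hTL hx⟩, hx, rfl⟩
  have hScard : hSf.toFinset.card ≤ cc := by
    have h1 : hSf.toFinset.card ≤ (insert c₁ T).card := by
      refine Finset.card_le_card_of_injOn (Subtype.val : L → G) ?_ hinj.injOn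
      intro x hx
      rw [Finset.mem_coe, Set.Finite.mem_toFinset] at hx
      rw [Finset.mem_coe, Finset.mem_insert]
      rcases hx with h | h
      · exact Or.inr h
      · exact Or.inl h
    rw [hcc]
    exact h1.trans (Finset.card_insert_le _ _)
  have hTcard : hTf.toFinset.card ≤ cc := by
    have h1 : hTf.toFinset.card ≤ T.card := by
      refine Finset.card_le_card_of_injOn (Subtype.val : L → G) ?_ hinj.injOn
      intro x hx
      rw [Finset.mem_coe, Set.Finite.mem_toFinset] at hx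
      exact hx
    omega
  have hSj : ∀ s ∈ hSf.toFinset, L.subtype s ∈ Sc K 0 := by
    intro s hs
    rw [Set.Finite.mem_toFinset] at hs
    rcases hs with h | h
    · exact hTK h
    · have : (s : G) = c₁ := h
      show (s : G) ∈ K
      rw [this]
      exact hK0K hc₁
  have hTj : ∀ s ∈ hTf.toFinset, L.subtype s ∈ Sc K 0 := by
    intro s hs
    rw [Set.Finite.mem_toFinset] at hs
    exact hTK hs
  have hB0 : Bd (Sc K) L.subtype 0 {c : L | (c : G) ∈ K0} := fun c hc => hK0K hc
  have h0 : ∀ x : L, ∃ c ∈ {c : L | (c : G) ∈ K0},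
      ∃ γ ∈ Subgroup.closure ((hTf.toFinset : Finset L) : Set L), x = c * γ := by
    intro x
    obtain ⟨c, hc, γ, hγ, e⟩ := hcov (x : G)
    have hγ2 := hγ
    rw [← hmap, Subgroup.mem_map] at hγ2
    obtain ⟨γ', hγ', e'⟩ := hγ2
    have hcx : ((x * γ'⁻¹ : L) : G) = c := by
      rw [Subgroup.coe_mul, Subgroup.coe_inv]
      have e'' : (γ' : G) = γ := e'
      rw [e'', e]; group
    refine ⟨x * γ'⁻¹, ?_, γ', hγ', by group⟩
    show ((x * γ'⁻¹ : L) : G) ∈ K0
    rw [hcx]; exact hc
  have hkL : (⊤ : Subgroup L).lowerCentralSeries k = ⊥ := by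
    rw [← Subgroup.map_subtype_inj, Subgroup.map_bot, Subgroup.top_subtype_lowerCentralSeries,
      eq_bot_iff, ← hk]
    exact Subgroup.lowerCentralSeries_mono k le_top
  have hfin := fun i => hJ i L L.subtype hSf.toFinset hTf.toFinset hScard hTcard hS hSj hTj
    _ hB0 h0 hkL
  choose C hCB hCsub hC using hfin
  let idx : ℕ → ℕ := fun i => min (i - 1) k
  have hidx : ∀ i, (⊤ : Subgroup L).lowerCentralSeries (idx i) =
      (⊤ : Subgroup L).lowerCentralSeries (i - 1) := by
    intro i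
    rcases le_total (i - 1) k with h | h
    · show (⊤ : Subgroup L).lowerCentralSeries (min (i - 1) k) = _
      rw [min_eq_left h]
    · show (⊤ : Subgroup L).lowerCentralSeries (min (i - 1) k) = _
      rw [min_eq_right h, hkL, eq_comm, eq_bot_iff, ← hkL]
      exact (⊤ : Subgroup L).lowerCentralSeries_antitone h
  have hanti : Antitone (fun i => (⊤ : Subgroup L).lowerCentralSeries (i - 1)) := by
    intro a b hab
    exact (⊤ : Subgroup L).lowerCentralSeries_antitone (Nat.sub_le_sub_right hab 1)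
  have hcomm : ∀ i j, ⁅(fun i => (⊤ : Subgroup L).lowerCentralSeries (i - 1)) i,
      (fun i => (⊤ : Subgroup L).lowerCentralSeries (i - 1)) j⁆ ≤
      (fun i => (⊤ : Subgroup L).lowerCentralSeries (i - 1)) (i + j) := by
    intro i j
    have hn : ∀ m, ((⊤ : Subgroup L).lowerCentralSeries m).Normal := fun m => inferInstance
    rcases Nat.eq_zero_or_pos i with hi | hi
    · subst hi
      have : ((⊤ : Subgroup L).lowerCentralSeries (j - 1)).Normal := hn _
      show ⁅(⊤ : Subgroup L).lowerCentralSeries (0 - 1),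
        (⊤ : Subgroup L).lowerCentralSeries (j - 1)⁆ ≤
        (⊤ : Subgroup L).lowerCentralSeries (0 + j - 1)
      rw [Nat.zero_add]
      exact Subgroup.commutator_le_right _ _
    · rcases Nat.eq_zero_or_pos j with hj | hj
      · subst hj
        have : ((⊤ : Subgroup L).lowerCentralSeries (i - 1)).Normal := hn _
        show ⁅(⊤ : Subgroup L).lowerCentralSeries (i - 1),
          (⊤ : Subgroup L).lowerCentralSeries (0 - 1)⁆ ≤
          (⊤ : Subgroup L).lowerCentralSeries (i + 0 - 1)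
        exact Subgroup.commutator_le_left _ _
      · have h := lcs_comm (L := L) (j - 1) (i - 1)
        have e : i - 1 + (j - 1) + 1 = i + j - 1 := by omega
        rw [e] at h
        exact h
  obtain ⟨κ, hκ1, hκ2⟩ := H514N.taskC L (fun i => (⊤ : Subgroup L).lowerCentralSeries (i - 1))
    (Γ.subgroupOf L) (fun i => C (idx i)) rfl rfl hanti hcomm (fun i => by
      show C (idx i) ⊆ (((⊤ : Subgroup L).lowerCentralSeries (i - 1) : Subgroup L) : Set L)
      rw [← hidx i]
      exact hCsub (idx i)) (fun i x hx => by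
      have hx' : x ∈ (⊤ : Subgroup L).lowerCentralSeries (idx i) := by rw [hidx i]; exact hx
      obtain ⟨c, hc, h⟩ := hC (idx i) x hx'
      refine ⟨c, hc, ?_⟩
      rw [Subgroup.mem_subgroupOf]
      apply hTleΓ
      rw [← hmap]
      exact ⟨c⁻¹ * x, h, rfl⟩)
  refine ⟨fun i => ((κ (List.replicate i (⟨g, hgL⟩ : L)) : L) : G), fun i => ?_, fun i hi => ?_,
    fun m => ?_⟩
  · have h1 := hκ1 (List.replicate i (⟨g, hgL⟩ : L))
    rw [List.length_replicate] at h1
    exact hB.mono (hJJ (idx i) (min_le_right _ _)) (hCB (idx i) _ h1)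
  · have h1 := hκ1 (List.replicate i (⟨g, hgL⟩ : L))
    rw [List.length_replicate] at h1
    have h2 := hCsub (idx i) h1
    have h3 : (⊤ : Subgroup L).lowerCentralSeries (idx i) = ⊥ := by
      have : idx i = k := min_eq_right (by omega)
      rw [this, hkL]
    rw [SetLike.mem_coe, h3, Subgroup.mem_bot] at h2
    beta_reduce
    rw [h2]
    rfl
  · obtain ⟨γ, hγ, e⟩ := hκ2 (List.replicate m (⟨g, hgL⟩ : L))
    refine ⟨(γ : G), hγ, ?_⟩
    have e1 : (List.replicate m (⟨g, hgL⟩ : L)).reverse.prod = (⟨g, hgL⟩ : L) ^ m := by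
      rw [List.reverse_replicate, List.prod_replicate]
    have e2 : (List.replicate m (⟨g, hgL⟩ : L)) =
        (List.replicate m ()).map (fun _ => (⟨g, hgL⟩ : L)) := by
      rw [List.map_replicate]
    have e3 : (List.replicate m (⟨g, hgL⟩ : L)).sublists'.map κ =
        (List.replicate m ()).sublists'.map (fun l => κ (List.replicate l.length (⟨g, hgL⟩ : L))) := by
      rw [e2, List.sublists'_map, List.map_map]
      apply List.map_congr_left
      intro l _
      show κ (l.map (fun _ => (⟨g, hgL⟩ : L))) = _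
      rw [List.map_const']
    rw [e1, e3] at e
    have e4 := congrArg (fun x : L => (x : G)) e
    beta_reduce at e4
    rw [Subgroup.coe_mul] at e4
    have e5 : (((List.replicate m ()).sublists'.map
        (fun l => κ (List.replicate l.length (⟨g, hgL⟩ : L)))).prod : G) =
        (wd (fun i => ((κ (List.replicate i (⟨g, hgL⟩ : L)) : L) : G)) m).prod := by
      have := map_list_prod L.subtype ((List.replicate m ()).sublists'.map
        (fun l => κ (List.replicate l.length (⟨g, hgL⟩ : L))))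
      rw [List.map_map] at this
      exact this
    rw [e5] at e4
    rw [← e4]
    simp

end Pool.Agent.TH573.NI
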